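import Pool.Agent.H41.UZ.TR
import Pool.Agent.H78.CM.Asm
import Pool.Agent.H38.SE.TarA

/-!
# MP_308708_lc for transitive models of ZF: definitions
-/

set_option linter.unusedVariables false

open Ordinal Order Set
open scoped ZFSet

namespace CZ

open SF

/-! ## The statement -/

/-- the transitive class `M` satisfies `ZF` -/
structure ZF (M : V → Prop) : Prop extends ZFm M where
  pow : ∀ x, M x → ∃ y, M y ∧ ∀ z, M z → z ⊆ x → z ∈ y

/-- the sequence `A`, as a set (a function on `ω`) -/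
noncomputable def seqS (A : ℕ → V) : V := ZFSet.range fun n : ℕ => ZFSet.pair (nS n) (A n)

/-- countable choice for finite sets holds in `M` -/
def CACfin (M : V → Prop) : Prop := ∀ A : ℕ → V, M (seqS A) →
  (∀ n, (A n : Set V).Finite ∧ (A n).Nonempty) → ∃ a : ℕ → V, M (seqS a) ∧ ∀ n, a n ∈ A n

/-- the quadruple `(x, (y, (m, n)))` -/
noncomputable def qr (x y : V) (m n : ℕ) : V :=
  ZFSet.pair x (ZFSet.pair y (ZFSet.pair (nS m) (nS n)))

/-- `d` is a metric on `X` which belongs to `M` (as a function from `X × X` to the Dedekind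
reals): the relations `n · d x y < m` and `m < n · d x y` belong to `M` -/
structure MetricIn (M : V → Prop) (X : V) (d : V → V → ℝ) : Prop where
  mem : M X
  self : ∀ x ∈ X, d x x = 0
  eq : ∀ x ∈ X, ∀ y ∈ X, d x y = 0 → x = y
  symm : ∀ x ∈ X, ∀ y ∈ X, d x y = d y x
  tri : ∀ x ∈ X, ∀ y ∈ X, ∀ z ∈ X, d x z ≤ d x y + d y z
  lt : ∃ L, M L ∧ ∀ x ∈ X, ∀ y ∈ X, ∀ m n : ℕ, qr x y m n ∈ L ↔ n * d x y < m
  gt : ∃ U, M U ∧ ∀ x ∈ X, ∀ y ∈ X, ∀ m n : ℕ, qr x y m n ∈ U ↔ m < n * d x y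

/-- `U` is open -/
def OpenIn (X : V) (d : V → V → ℝ) (U : V) : Prop :=
  U ⊆ X ∧ ∀ x ∈ U, ∃ ε > 0, ∀ y ∈ X, d x y < ε → y ∈ U

/-- `X` is compact in `M` -/
def CompactIn (M : V → Prop) (X : V) (d : V → V → ℝ) : Prop := ∀ C, M C →
  (∀ U ∈ C, OpenIn X d U) → (∀ x ∈ X, ∃ U ∈ C, x ∈ U) →
    ∃ F : V, F ⊆ C ∧ (F : Set V).Finite ∧ ∀ x ∈ X, ∃ U ∈ F, x ∈ U

/-- `M` contains an injection of `x` into `y` -/
def InjIn (M : V → Prop) (x y : V) : Prop := ∃ f, M f ∧ ZFSet.IsFunc x y f ∧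
  ∀ s t z, ZFSet.pair s z ∈ f → ZFSet.pair t z ∈ f → s = t

/-- the main theorem -/
def T_MAIN : Prop := ∀ M : V → Prop, ZF M → CACfin M → ∀ X d, MetricIn M X d →
  CompactIn M X d → ¬ InjIn M X om → InjIn M ((ZFSet.powerset om).sep M) X

/-! ## Codes of the metric, realizations -/

/-- the set `R` codes the metric -/
structure Rk (M : V → Prop) (X R : V) (d : V → V → ℝ) : Prop where
  n : M R
  lt : ∀ x y q : V, ZFSet.pair (nS 0) (ZFSet.pair x (ZFSet.pair y q)) ∈ R ↔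
    x ∈ X ∧ y ∈ X ∧ ∃ m n : ℕ, q = ZFSet.pair (nS m) (nS n) ∧ n * d x y < m
  gt : ∀ x y q : V, ZFSet.pair (nS 1) (ZFSet.pair x (ZFSet.pair y q)) ∈ R ↔
    x ∈ X ∧ y ∈ X ∧ ∃ m n : ℕ, q = ZFSet.pair (nS m) (nS n) ∧ m < n * d x y
  s : ∀ s w : V, ZFSet.pair s w ∈ R → s = nS 0 ∨ s = nS 1

/-- RK: existence of the code -/
def T_RK : Prop := ∀ M X d, ZFm M → MetricIn M X d → ∃ R, Rk M X R d

/-- `Y` (with `ι`) is a completion of `X` -/
structure Rz (X : V) (d : V → V → ℝ) {Y : Type 1} [MetricSpace Y] (ι : V → Y) : Prop where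
  dist : ∀ x ∈ X, ∀ y ∈ X, dist (ι x) (ι y) = d x y
  dense : ∀ (y : Y), ∀ ε > 0, ∃ x ∈ X, Dist.dist y (ι x) < ε

/-- CMP: existence of a compact completion -/
def T_CMP : Prop := ∀ M X d, ZF M → MetricIn M X d → CompactIn M X d → X.Nonempty →
  ∃ (Y : Type 1) (_ : MetricSpace Y) (_ : CompactSpace Y) (ι : V → Y), Rz X d ι

/-! ## Types -/

/-- the coordinate `v` of `z` -/
noncomputable def co (z v : V) : V := app (app z (fst v)) (snd v)

/-- the constraint `c` holds for `z` -/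
def Cn (R z c : V) : Prop := ZFSet.pair (fst c) (ZFSet.pair (co z (fst (snd c)))
  (ZFSet.pair (co z (fst (snd (snd c)))) (snd (snd (snd c))))) ∈ R

/-- `f` satisfies the existential condition `(l, A)`; `a` is a sequence of sets of tuples -/
def PP (M : V → Prop) (R a l A f : V) : Prop := ∃ z, M z ∧ app z (nS 0) = f ∧
  (∀ j ∈ l, app a j = ∅ ∨ app z (ZFSet.pair (nS 1) j) ∈ app a j) ∧ ∀ c ∈ A, Cn R z c

/-- the tuple `(u 0, ..., u (k - 1))` -/
noncomputable def tp (k : ℕ) (u : ℕ → V) : V :=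
  ZFSet.range fun i : Fin k => ZFSet.pair (nS i) (u i)

/-- the members of the sets `app a (nS j)` are tuples of length `K j` -/
def Blk (X a : V) (K : ℕ → ℕ) : Prop := ∀ j, ∀ t ∈ app a (nS j), ∃ u : ℕ → V, (∀ i, u i ∈ X) ∧
  t = tp (K j) u

/-- `F j` is an element of the set `app a (nS j)` if it is nonempty -/
def Sel (X a : V) (K : ℕ → ℕ) (F : ℕ → ℕ → V) : Prop := (∀ j i, F j i ∈ X) ∧
  ∀ j, app a (nS j) ≠ ∅ → tp (K j) (F j) ∈ app a (nS j)

section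

variable {Y : Type 1} [MetricSpace Y] (ι : V → Y)

/-- `g (F j)` is in the closure of `app a (nS j)` for all `j` -/
def Pre (X a : V) (K : ℕ → ℕ) (F : ℕ → ℕ → V) (g : Y ≃ᵢ Y) : Prop :=
  ∀ j, app a (nS j) ≠ ∅ → ∀ η > 0, ∃ t : ℕ → V, (∀ i, t i ∈ X) ∧
    tp (K j) t ∈ app a (nS j) ∧ ∀ i < K j, dist (ι (t i)) (g (ι (F j i))) < η

end

/-- SEP: separation of points by existential conditions -/
def T_SEP : Prop := ∀ (M : V → Prop) (X R : V) (d : V → V → ℝ), ZF M → MetricIn M X d →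
  Rk M X R d → ∀ (Y : Type 1) [MetricSpace Y] [CompactSpace Y] (ι : V → Y), Rz X d ι →
  ∀ (a : V) (K : ℕ → ℕ) (F : ℕ → ℕ → V), Blk X a K → Sel X a K F →
  ∀ (k : ℕ) (f : ℕ → Y), ∀ δ > 0, ∃ (l : ℕ) (A : V), A ∈ SE.hf ∧ ∃ ρ > 0,
    (∀ u : ℕ → V, (∀ i, u i ∈ X) → (∀ i < k, dist (ι (u i)) (f i) < ρ) →
      PP M R a (nS l) A (tp k u)) ∧
    ∀ u : ℕ → V, (∀ i, u i ∈ X) → PP M R a (nS l) A (tp k u) →
      ∃ g : Y ≃ᵢ Y, (∀ i < k, dist (ι (u i)) (g (f i)) < δ) ∧ Pre ι X a K F g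

/-! ## The classes (stage 1) -/

/-- the set of the tuples of length `k` -/
noncomputable def Tu (M : V → Prop) (X k : V) : V :=
  ((ZFSet.powerset (ZFSet.prod k X)).sep M).sep fun t => ZFSet.IsFunc k X t

/-- the set `U` of the code `c = (k, (A, n))` -/
noncomputable def Uc (M : V → Prop) (X R c : V) : V :=
  (Tu M X (fst c)).sep fun t => PP M R ∅ ∅ (fst (snd c)) t

/-- the tuples are at distance less than `1/n` -/
def Stp (R c t t' : V) : Prop := ∀ i ∈ fst c, ZFSet.pair (nS 0) (ZFSet.pair (app t i)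
  (ZFSet.pair (app t' i) (ZFSet.pair (nS 1) (snd (snd c))))) ∈ R

/-- chains -/
def Chn (M : V → Prop) (X R c t t' : V) : Prop := ∃ z, M z ∧ ∃ m, M m ∧ (m ∈ om ∧
  app z (nS 0) = t ∧ app z m = t' ∧ ∀ i ∈ m, app z (insert i i) ∈ Uc M X R c ∧
    Stp R c (app z i) (app z (insert i i)))

/-- the set of the classes; `{∅}` if `U` is empty -/
noncomputable def Fm (M : V → Prop) (X R c : V) : V :=
  (imS (Uc M X R c) fun t => (Uc M X R c).sep fun t' => Chn M X R c t t') ∪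
    (({∅} : V).sep fun _ => Uc M X R c = ∅)

/-- CHN: chains of elements of `M` are chains -/
def T_CHN : Prop := ∀ (M : V → Prop) (X R : V) (d : V → V → ℝ), ZF M → MetricIn M X d →
  Rk M X R d → ∀ c, M c → ∀ t ∈ Uc M X R c, ∀ t', Chn M X R c t t' ↔
    Relation.ReflTransGen (fun s s' => s ∈ Uc M X R c ∧ s' ∈ Uc M X R c ∧ Stp R c s s') t t'

/-- FAM: the families of classes are definable -/
def T_FAM : Prop := ∀ (M : V → Prop) (X R : V) (d : V → V → ℝ), ZF M → MetricIn M X d →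
  Rk M X R d → _root_.UZ.TN M (fun u => Fm M X R (u 0))

/-- FIN: the sets of classes are finite and nonempty -/
def T_FIN : Prop := ∀ (M : V → Prop) (X R : V) (d : V → V → ℝ), ZF M → MetricIn M X d →
  Rk M X R d → ∀ (Y : Type 1) [MetricSpace Y] [CompactSpace Y] (ι : V → Y), Rz X d ι →
  (∀ c, M c → (Fm M X R c).Nonempty) ∧
  (∀ (k n : ℕ) (A : V), M A → ((Fm M X R (ZFSet.pair (nS k) (ZFSet.pair A (nS (n + 1)))) : V) :
    Set V).Finite)

/-- STB: the choice of classes rigidifies the profinite part -/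
def T_STB : Prop := ∀ (M : V → Prop) (X R : V) (d : V → V → ℝ), ZF M → MetricIn M X d →
  Rk M X R d → ∀ (Y : Type 1) [MetricSpace Y] [CompactSpace Y] (ι : V → Y), Rz X d ι →
  ∀ (a : V) (K : ℕ → ℕ) (F : ℕ → ℕ → V), Blk X a K → Sel X a K F →
  -- every class is given
  (∀ (k n : ℕ), ∀ A ∈ SE.hf, ∃ j, app a (nS j) ∈
    Fm M X R (ZFSet.pair (nS k) (ZFSet.pair A (nS (n + 1))))) →
  ∀ N : Subgroup (Y ≃ᵢ Y), N.Normal →
    (∃ E : Finset Y, (∀ e ∈ E, ∃ x ∈ X, ι x = e) ∧ ∀ g : Y ≃ᵢ Y, (∀ e ∈ E, g e = e) → g ∈ N) →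
    (∃ ε > 0, ∀ g : Y ≃ᵢ Y, (∀ y, dist (g y) y < ε) → g ∈ N) →
    ∀ g : Y ≃ᵢ Y, Pre ι X a K F g → g ∈ N

/-! ## Theorem A -/

/-- `W` is a sequence of open sets -/
structure Fam (M : V → Prop) (X W : V) (d : V → V → ℝ) : Prop where
  n : M W
  o : ∀ n : ℕ, OpenIn X d (app W (nS n))

/-- nodes -/
def Nd (W : V) (d : V → V → ℝ) (k n : ℕ) : Prop := (app W (nS n)).Nonempty ∧
  ∀ x ∈ app W (nS n), ∀ y ∈ app W (nS n), (k + 1) * d x y ≤ 1

/-- strongly inside -/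
def Ins (X W : V) (d : V → V → ℝ) (n' n : ℕ) : Prop := ∃ r : ℕ, ∀ x ∈ app W (nS n'),
  ∀ y ∈ X, (r + 1) * d x y < 1 → y ∈ app W (nS n)

/-- separated -/
def Spd (W : V) (d : V → V → ℝ) (n' n : ℕ) : Prop := ∃ r : ℕ, ∀ x ∈ app W (nS n'),
  ∀ y ∈ app W (nS n), 1 ≤ (r + 1) * d x y

/-- the derivatives -/
def Dk (X W : V) (d : V → V → ℝ) (α : Ordinal.{0}) (k n : ℕ) : Prop :=
  Nd W d k n ∧ ∀ β : Iio α, ∃ n' n'', Dk X W d β.1 (k + 1) n' ∧ Dk X W d β.1 (k + 1) n'' ∧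
    Ins X W d n' n ∧ Ins X W d n'' n ∧ Spd W d n' n''
termination_by α
decreasing_by all_goals exact β.2

/-- the set of the pairs `(k, n)` in the derivative `α` -/
noncomputable def Ds (X W : V) (d : V → V → ℝ) (α : Ordinal.{0}) : V :=
  (ZFSet.prod om om).sep fun z => ∃ k n : ℕ, z = ZFSet.pair (nS k) (nS n) ∧ Dk X W d α k n

/-- KD: the derivatives are definable -/
def T_KD : Prop := ∀ (M : V → Prop) (X W R : V) (d : V → V → ℝ), ZF M → MetricIn M X d →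
  Rk M X R d → Fam M X W d → _root_.UZ.TN M (fun u => Ds X W d (u 0).rank)

/-- KA: if the kernel is nonempty then the reals inject into `X` -/
def T_KA : Prop := ∀ (M : V → Prop) (X W R : V) (d : V → V → ℝ), ZF M → MetricIn M X d →
  Rk M X R d → CompactIn M X d → Fam M X W d →
  (∃ k n : ℕ, ∀ α : Ordinal.{0}, M α.toZFSet → Dk X W d α k n) →
    InjIn M ((ZFSet.powerset om).sep M) X

/-- KB: if the kernel is empty and the sets of `W` form a base then `X` injects into `ω` -/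
def T_KB : Prop := ∀ (M : V → Prop) (X W R : V) (d : V → V → ℝ), ZF M → MetricIn M X d →
  Rk M X R d → Fam M X W d →
  (¬ ∃ k n : ℕ, ∀ α : Ordinal.{0}, M α.toZFSet → Dk X W d α k n) →
  (∀ x ∈ X, ∀ k, ∃ n, Nd W d k n ∧ x ∈ app W (nS n)) → InjIn M X om

/-- KC: a path of points with small neighbourhoods in `W` gives a nonempty kernel -/
def T_KC : Prop := ∀ (M : V → Prop) (X W : V) (d : V → V → ℝ), ZF M → MetricIn M X d →
  Fam M X W d → ∀ (Y : Type 1) [MetricSpace Y] [CompactSpace Y] (ι : V → Y), Rz X d ι →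
  ∀ P : Set Y, P.Nonempty → (∀ x ∈ P, ∀ ε > 0, ∃ y ∈ P, y ≠ x ∧ dist x y < ε) →
  (∀ x ∈ P, ∀ k, ∃ n, Nd W d k n ∧ ∃ ρ > 0, ∀ u ∈ X, dist (ι u) x < ρ → u ∈ app W (nS n)) →
  ∃ k n : ℕ, ∀ α : Ordinal.{0}, M α.toZFSet → Dk X W d α k n

/-- WF: the family of the sets which are defined by the conditions -/
def T_WF : Prop := ∀ (M : V → Prop) (X R a : V) (d : V → V → ℝ), ZF M → MetricIn M X d →
  Rk M X R d → M a → (∀ j t, t ∈ app a (nS j) → M t) → ∃ W, Fam M X W d ∧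
    (∀ (l : ℕ), ∀ A ∈ SE.hf, ∃ n, ∀ x, x ∈ app W (nS n) ↔
      x ∈ X ∧ ∃ ρ > 0, ∀ y ∈ X, d x y < ρ → PP M R a (nS l) A (tp 1 fun _ => y))

end CZ
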