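import Pool.Agent.H41.CZ.KD

/-!
# MP_308708_lc (transitive models): a nonempty kernel gives an injection of the reals
-/

set_option linter.unusedVariables false

open Ordinal Order Set
open scoped ZFSet

namespace CZ

open SF UZ

namespace KAaux

open KDaux

variable {M : V → Prop} {X W R D : V} {d : V → V → ℝ} {F G F0 : (ℕ → V) → V}

/-! ### the power set -/

theorem pwN_mem (hN : ZF M) {a : V} (ha : M a) : M (pwN M a) := by
  obtain ⟨y, hy, h⟩ := hN.pow a ha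
  have h1 : M (y.sep fun x => x ⊆ a) := by
    have h2 : DN M (fun u => u 0 ⊆ u 1) :=
      DN.subset hN.toZFm (TN.var hN.toZFm 0) (TN.var hN.toZFm 1)
    exact h2.sepN hN.toZFm hy (u := fun _ => a) fun _ => ha
  have e : pwN M a = y.sep fun x => x ⊆ a := by
    ext x
    rw [mem_pwN, ZFSet.mem_sep]
    constructor
    · rintro ⟨h2, h3⟩
      exact ⟨h x h3 h2, h2⟩
    · rintro ⟨h2, h3⟩
      exact ⟨h3, hN.trans _ hy x h2⟩
  rw [e]
  exact h1

/-! ### iteration -/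

/-- iteration -/
noncomputable def itN (G F0 : (ℕ → V) → V) (v : ℕ → V) : ℕ → V
  | 0 => F0 v
  | n + 1 => G (cons (itN G F0 v n) v)

theorem tn_itN (hM : ZFm M) (hG : TN M G) (hF : TN M F0) :
    TN M (fun u => itN G F0 (fun i => u (i + 1)) (nn (u 0))) := by
  obtain ⟨g, f, hg, hf, q, hq, h⟩ := TN.two hM hG hF
  have h1 : ∀ v, In M v → ∀ n, itN G F0 v n =
      it (fun M w => g M fun i => w (sw i)) f M (cons q v) n ∧ M (itN G F0 v n) := by
    intro v hv n
    induction n with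
    | zero => exact ⟨(h v hv).2, TN.mem hM hF hv⟩
    | succ n ih =>
      have h2 : M (itN G F0 v (n + 1)) := TN.mem hM hG (hv.cons ih.2)
      refine ⟨?_, h2⟩
      show G (cons (itN G F0 v n) v) = (fun M w => g M fun i => w (sw i)) M
        (cons (it (fun M w => g M fun i => w (sw i)) f M (cons q v) n) (cons q v))
      rw [← ih.1, (h _ (hv.cons ih.2)).1]
      show _ = g M fun i => cons (itN G F0 v n) (cons q v) (sw i)
      rw [cons_sw]
  refine ⟨_, (tm_it (hg.rn sw) hf).rn sw, q, hq, fun u hu => ?_⟩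
  show _ = it (fun M w => g M fun i => w (sw i)) f M (fun i => cons q u (sw (i + 1)))
    (nn (cons q u (sw 0)))
  refine (h1 _ (fun i => hu (i + 1)) _).1.trans ?_
  congr 1
  funext i
  match i with
  | 0 => rfl
  | j + 1 => rfl

/-! ### least elements -/

theorem mem_nS' {n : ℕ} {x : V} (h : x ∈ nS n) : ∃ j < n, x = nS j := by
  obtain ⟨a, ha, rfl⟩ := Ordinal.mem_toZFSet_iff.1 h
  obtain ⟨j, rfl⟩ := Ordinal.lt_omega0.1 (ha.trans (Ordinal.natCast_lt_omega0 n))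
  exact ⟨j, by exact_mod_cast ha, rfl⟩

/-- the least element of a set of natural numbers -/
noncomputable def mn (S : V) : V := om.sep fun m => ∀ s ∈ S, m ∈ s

theorem tn_mn (hM : ZFm M) (hF : TN M F) : TN M (fun u => mn (F u)) := by
  refine TN.sep (S := fun w => ∀ s ∈ F (fun i => w (i + 1)), w 0 ∈ s) hM ?_ (TN.om hM)
  exact DN.ball (F := fun w => F fun i => w (i + 1)) (S := fun w => w 1 ∈ w 0) hM
    (hF.rn (fun i => i + 1)) (DN.mem hM (TN.var hM 1) (TN.var hM 0))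

theorem mn_mem {S : V} (h : S ⊆ om) (hn : S.Nonempty) : mn S ∈ S := by
  classical
  obtain ⟨y, hy⟩ := hn
  obtain ⟨n0, rfl⟩ := mem_om.1 (h hy)
  have hex : ∃ n, nS n ∈ S := ⟨n0, hy⟩
  have e : mn S = nS (Nat.find hex) := by
    ext m
    unfold mn
    rw [ZFSet.mem_sep]
    constructor
    · rintro ⟨_, h2⟩
      exact h2 _ (Nat.find_spec hex)
    · intro hm
      obtain ⟨j, hj, rfl⟩ := mem_nS' hm
      refine ⟨nS_mem_om j, fun s hs => ?_⟩
      obtain ⟨i, rfl⟩ := mem_om.1 (h hs)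
      rw [nS_mem_nS]
      exact lt_of_lt_of_le hj (Nat.find_min' hex hs)
  rw [e]
  exact Nat.find_spec hex

/-! ### the next nodes -/

/-- the left node -/
noncomputable def nl (X W R D p : V) : V :=
  mn (om.sep fun a => ∃ b ∈ om, NxV X W R D (fst p) (snd p) a b)

/-- the right node -/
noncomputable def nr (X W R D p : V) : V :=
  mn (om.sep fun b => NxV X W R D (fst p) (snd p) (nl X W R D p) b)

theorem tn_nl (hM : ZFm M) (hX : M X) (hW : M W) (hR : M R) (hD : M D) (hF : TN M F) :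
    TN M (fun u => nl X W R D (F u)) := by
  refine tn_mn hM ?_
  refine TN.sep (S := fun w => ∃ b ∈ om, NxV X W R D (fst (F fun i => w (i + 1)))
    (snd (F fun i => w (i + 1))) (w 0) b) hM ?_ (TN.om hM)
  refine DN.bex (F := fun _ => om) (S := fun w => NxV X W R D (fst (F fun i => w (i + 2)))
    (snd (F fun i => w (i + 2))) (w 1) (w 0)) hM (TN.om hM) ?_
  exact dn_nxV hM hX hW hR (TN.cst hD) (TN.fst hM (hF.rn (fun i => i + 2)))
    (TN.snd hM (hF.rn (fun i => i + 2))) (TN.var hM 1) (TN.var hM 0)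

theorem tn_nr (hM : ZFm M) (hX : M X) (hW : M W) (hR : M R) (hD : M D) (hF : TN M F) :
    TN M (fun u => nr X W R D (F u)) := by
  refine tn_mn hM ?_
  refine TN.sep (S := fun w => NxV X W R D (fst (F fun i => w (i + 1)))
    (snd (F fun i => w (i + 1))) (nl X W R D (F fun i => w (i + 1))) (w 0)) hM ?_ (TN.om hM)
  exact dn_nxV hM hX hW hR (TN.cst hD) (TN.fst hM (hF.rn (fun i => i + 1)))
    (TN.snd hM (hF.rn (fun i => i + 1))) (tn_nl hM hX hW hR hD (hF.rn (fun i => i + 1)))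
    (TN.var hM 0)

theorem nl_nr {p : V} (h : ∃ a ∈ om, ∃ b ∈ om, NxV X W R D (fst p) (snd p) a b) :
    nl X W R D p ∈ om ∧ nr X W R D p ∈ om ∧
      NxV X W R D (fst p) (snd p) (nl X W R D p) (nr X W R D p) := by
  obtain ⟨a, ha, b, hb, h1⟩ := h
  have h2 : nl X W R D p ∈ om.sep fun a => ∃ b ∈ om, NxV X W R D (fst p) (snd p) a b :=
    mn_mem (fun x hx => (ZFSet.mem_sep.1 hx).1) ⟨a, ZFSet.mem_sep.2 ⟨ha, b, hb, h1⟩⟩
  obtain ⟨h3, b', hb', h4⟩ := ZFSet.mem_sep.1 h2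
  have h5 : nr X W R D p ∈ om.sep fun b => NxV X W R D (fst p) (snd p) (nl X W R D p) b :=
    mn_mem (fun x hx => (ZFSet.mem_sep.1 hx).1) ⟨b', ZFSet.mem_sep.2 ⟨hb', h4⟩⟩
  obtain ⟨h6, h7⟩ := ZFSet.mem_sep.1 h5
  exact ⟨h3, h6, h7⟩

/-- the branch -/
noncomputable def sq (X W R D : V) (k0 n0 : ℕ) (z : V) : ℕ → V
  | 0 => ZFSet.pair ∅ (ZFSet.pair (nS k0) (nS n0))
  | j + 1 => ZFSet.pair (insert (fst (sq X W R D k0 n0 z j)) (fst (sq X W R D k0 n0 z j)))
      (ZFSet.pair (insert (fst (snd (sq X W R D k0 n0 z j))) (fst (snd (sq X W R D k0 n0 z j))))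
        (sel (fst (sq X W R D k0 n0 z j) ∈ z) (nl X W R D (snd (sq X W R D k0 n0 z j)))
          (nr X W R D (snd (sq X W R D k0 n0 z j)))))

theorem tn_sq (hM : ZFm M) (hX : M X) (hW : M W) (hR : M R) (hD : M D) (k0 n0 : ℕ) :
    TN M (fun u => sq X W R D k0 n0 (u 1) (nn (u 0))) := by
  have v0 := TN.var (N := M) hM 0
  have h0 : TN M (fun _ : ℕ → V => ZFSet.pair (∅ : V) (ZFSet.pair (nS k0) (nS n0))) :=
    TN.pair hM (TN.empty hM) (TN.pair hM (TN.nS hM k0) (TN.nS hM n0))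
  have h1 : TN M (fun w : ℕ → V => ZFSet.pair (insert (fst (w 0)) (fst (w 0)))
      (ZFSet.pair (insert (fst (snd (w 0))) (fst (snd (w 0))))
        (sel (fst (w 0) ∈ w 1) (nl X W R D (snd (w 0))) (nr X W R D (snd (w 0)))))) := by
    refine TN.pair hM (TN.ins hM (TN.fst hM v0) (TN.fst hM v0)) (TN.pair hM
      (TN.ins hM (TN.fst hM (TN.snd hM v0)) (TN.fst hM (TN.snd hM v0))) ?_)
    exact TN.sel hM (DN.mem hM (TN.fst hM v0) (TN.var hM 1))
      (tn_nl hM hX hW hR hD (TN.snd hM v0)) (tn_nr hM hX hW hR hD (TN.snd hM v0))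
  refine (tn_itN hM h1 h0).congr fun u hu => ?_
  have h2 : ∀ n, itN (fun w : ℕ → V => ZFSet.pair (insert (fst (w 0)) (fst (w 0)))
      (ZFSet.pair (insert (fst (snd (w 0))) (fst (snd (w 0))))
        (sel (fst (w 0) ∈ w 1) (nl X W R D (snd (w 0))) (nr X W R D (snd (w 0))))))
      (fun _ : ℕ → V => ZFSet.pair (∅ : V) (ZFSet.pair (nS k0) (nS n0)))
      (fun i => u (i + 1)) n = sq X W R D k0 n0 (u 1) n := by
    intro n
    induction n with
    | zero => rfl
    | succ n ih =>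
      unfold itN
      rw [ih]
      rfl
  exact h2 _

/-- the complement of the closure -/
noncomputable def Un (X W R n : V) : V := X.sep fun x => ∃ r ∈ om, ∀ y ∈ app W n,
  ZFSet.pair (nS 0) (ZFSet.pair x (ZFSet.pair y (ZFSet.pair (nS 1) (insert r r)))) ∉ R

theorem tn_Un (hM : ZFm M) (hX : M X) (hW : M W) (hR : M R) (hF : TN M F) :
    TN M (fun u => Un X W R (F u)) := by
  refine TN.sep (S := fun w => ∃ r ∈ om, ∀ y ∈ app W (F fun i => w (i + 1)),
    ZFSet.pair (nS 0) (ZFSet.pair (w 0) (ZFSet.pair y (ZFSet.pair (nS 1) (insert r r)))) ∉ R)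
      hM ?_ (TN.cst hX)
  refine DN.bex (F := fun _ => om) (S := fun w => ∀ y ∈ app W (F fun i => w (i + 2)),
    ZFSet.pair (nS 0) (ZFSet.pair (w 1) (ZFSet.pair y (ZFSet.pair (nS 1)
      (insert (w 0) (w 0))))) ∉ R) hM (TN.om hM) ?_
  refine DN.ball (F := fun w => app W (F fun i => w (i + 2))) (S := fun w =>
    ZFSet.pair (nS 0) (ZFSet.pair (w 2) (ZFSet.pair (w 0) (ZFSet.pair (nS 1)
      (insert (w 1) (w 1))))) ∉ R) hM (TN.app hM (TN.cst hW) (hF.rn (fun i => i + 2))) ?_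
  exact (tn_q hM hR 0 (TN.var hM 2) (TN.var hM 0) (TN.var hM 1)).not

theorem mem_Un (hR : Rk M X R d) (hW : Fam M X W d) {n : ℕ} {x : V} :
    x ∈ Un X W R (nS n) ↔ x ∈ X ∧ ∃ r : ℕ, ∀ y ∈ app W (nS n), 1 ≤ (r + 1) * d x y := by
  have hs := (hW.o n).1
  unfold Un
  rw [ZFSet.mem_sep]
  refine and_congr_right fun hx => ?_
  constructor
  · rintro ⟨r', hr, h⟩
    obtain ⟨r, rfl⟩ := mem_om.1 hr
    refine ⟨r, fun y hy => ?_⟩
    have h1 := h y hy
    rw [← nS_succ, rk_lt hR hx (hs hy), not_lt] at h1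
    push_cast at h1
    exact h1
  · rintro ⟨r, h⟩
    refine ⟨nS r, mem_om.2 ⟨r, rfl⟩, fun y hy => ?_⟩
    rw [← nS_succ, rk_lt hR hx (hs hy), not_lt]
    push_cast
    exact h y hy

theorem open_Un (hd : MetricIn M X d) (hR : Rk M X R d) (hW : Fam M X W d) (n : ℕ) :
    OpenIn X d (Un X W R (nS n)) := by
  refine ⟨fun x hx => (ZFSet.mem_sep.1 hx).1, fun x hx => ?_⟩
  obtain ⟨hx, r, h⟩ := (mem_Un hR hW).1 hx
  have hr : (0 : ℝ) < r + 1 := by positivity
  refine ⟨1 / (2 * (r + 1)), by positivity, fun y hy hxy => ?_⟩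
  refine (mem_Un hR hW).2 ⟨hy, 2 * r + 1, fun w hw => ?_⟩
  have h1 := h w hw
  have h2 := hd.tri x hx y hy w ((hW.o n).1 hw)
  have h3 : 1 / ((r : ℝ) + 1) ≤ d x w := by
    rw [div_le_iff₀ hr]
    linarith
  have h4 : 1 / (2 * ((r : ℝ) + 1)) = 1 / ((r : ℝ) + 1) / 2 := by
    field_simp
  have h5 : 1 / (2 * ((r : ℝ) + 1)) ≤ d y w := by linarith
  rw [div_le_iff₀ (by positivity)] at h5
  push_cast
  nlinarith

/-- the kernel -/
noncomputable def Dn (M : V → Prop) (X W : V) (d : V → V → ℝ) : V :=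
  (ZFSet.prod om om).sep fun z => ∀ x, M x → IsOrd x → z ∈ Ds X W d x.rank

theorem dn_mem (hZ : ZF M) (hd : MetricIn M X d) (hR : Rk M X R d) (hW : Fam M X W d) :
    M (Dn M X W d) := by
  have hM := hZ.toZFm
  have hk := pf_KD M X W R d hZ hd hR hW
  have h1 : DN M (fun u => ∀ x, M x → (IsOrd x → u 0 ∈ Ds X W d x.rank)) :=
    DN.all (S := fun w => IsOrd (w 0) → w 1 ∈ Ds X W d (w 0).rank)
      ((DN.isOrd hM (TN.var hM 0)).imp hM (DN.mem hM (TN.var hM 1) hk))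
  exact h1.sepN hM (TN.mem hM (TN.prod hM (TN.om hM) (TN.om hM)) (u := fun _ => ∅)
    fun _ => TN.mem hM (TN.empty hM) (u := fun _ => X) fun _ => hd.mem) (u := fun _ => X)
      fun _ => hd.mem

theorem mem_Ds {α : Ordinal.{0}} {k n : ℕ} :
    ZFSet.pair (nS k) (nS n) ∈ Ds X W d α ↔ Dk X W d α k n := by
  unfold Ds
  rw [ZFSet.mem_sep]
  constructor
  · rintro ⟨_, k', n', h1, h2⟩
    obtain ⟨h3, h4⟩ := ZFSet.pair_injective h1
    rw [nS_inj] at h3 h4
    subst h3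
    subst h4
    exact h2
  · intro h
    exact ⟨ZFSet.pair_mem_prod.2 ⟨nS_mem_om k, nS_mem_om n⟩, k, n, rfl, h⟩

theorem mem_Dn {k n : ℕ} : ZFSet.pair (nS k) (nS n) ∈ Dn M X W d ↔
    ∀ α : Ordinal.{0}, M α.toZFSet → Dk X W d α k n := by
  unfold Dn
  rw [ZFSet.mem_sep]
  constructor
  · rintro ⟨_, h⟩ α hα
    have h1 := h _ hα (isOrd_toZFSet α)
    rw [Ordinal.rank_toZFSet] at h1
    exact mem_Ds.1 h1
  · intro h
    refine ⟨ZFSet.pair_mem_prod.2 ⟨nS_mem_om k, nS_mem_om n⟩, ?_⟩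
    rintro x hx ⟨α, rfl⟩
    rw [Ordinal.rank_toZFSet]
    exact mem_Ds.2 (h α hx)

theorem dk_mono {α β : Ordinal.{0}} (h : β ≤ α) {k n : ℕ} (hk : Dk X W d α k n) :
    Dk X W d β k n := by
  rw [Dk] at hk ⊢
  exact ⟨hk.1, fun γ => hk.2 ⟨γ.1, lt_of_lt_of_le γ.2 h⟩⟩

/-- reflection -/
theorem refl_Dn (hZ : ZF M) (hd : MetricIn M X d) (hR : Rk M X R d) (hW : Fam M X W d) {k n : ℕ}
    (h : ZFSet.pair (nS k) (nS n) ∈ Dn M X W d) :
    ∃ a ∈ om, ∃ b ∈ om, NxV X W R (Dn M X W d) (nS k) (nS n) a b := by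
  have hM := hZ.toZFm
  by_contra hc
  push Not at hc
  have hk := pf_KD M X W R d hZ hd hR hW
  have v0 := TN.var (N := M) hM 0
  have v1 := TN.var (N := M) hM 1
  -- the ordinals
  have hP : DN M (fun w => IsOrd (w 0) ∧
      ¬ NxV X W R (Ds X W d (w 0).rank) (nS k) (nS n) (fst (w 1)) (snd (w 1))) := by
    refine (DN.isOrd hM v0).and hM (DN.not ?_)
    exact dn_nxV hM hd.mem hW.n hR.n hk (TN.nS hM k) (TN.nS hM n) (TN.fst hM v1) (TN.snd hM v1)
  have hI : M (ZFSet.prod om om) := TN.mem hM (TN.prod hM (TN.om hM) (TN.om hM))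
    (u := fun _ => X) fun _ => hd.mem
  obtain ⟨A, hA, hA2⟩ := exists_coll hM hI (u := fun _ => X) (fun _ => hd.mem) hP (by
    intro p hp
    obtain ⟨a', ha, b', hb, rfl⟩ := ZFSet.mem_prod.1 hp
    obtain ⟨a, rfl⟩ := mem_om.1 ha
    obtain ⟨b, rfl⟩ := mem_om.1 hb
    have h1 := hc _ ha _ hb
    by_contra h2
    push Not at h2
    apply h1
    have h3 : ∀ α : Ordinal.{0}, M α.toZFSet → NxV X W R (Ds X W d α) (nS k) (nS n) (nS a)
        (nS b) := by
      intro α hα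
      have h4 : NxV X W R (Ds X W d α.toZFSet.rank) (nS k) (nS n)
          (fst (ZFSet.pair (nS a) (nS b))) (snd (ZFSet.pair (nS a) (nS b))) :=
        h2 _ hα (isOrd_toZFSet α)
      rw [fst_pair, snd_pair, Ordinal.rank_toZFSet] at h4
      exact h4
    have h0 : M (0 : Ordinal.{0}).toZFSet := by
      have e : ((0 : ℕ) : Ordinal.{0}).toZFSet = (0 : Ordinal.{0}).toZFSet := by
        rw [Nat.cast_zero]
      rw [← e]
      exact TN.mem hM (TN.nS hM 0) (u := fun _ => X) fun _ => hd.mem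
    have h6 := h3 0 h0
    refine ⟨?_, ?_, h6.2.2.1, h6.2.2.2.1, h6.2.2.2.2⟩
    · rw [← nS_succ, mem_Dn]
      intro α hα
      have h7 := (h3 α hα).1
      rw [← nS_succ, mem_Ds] at h7
      exact h7
    · rw [← nS_succ, mem_Dn]
      intro α hα
      have h7 := (h3 α hα).2.1
      rw [← nS_succ, mem_Ds] at h7
      exact h7)
  -- the next ordinal
  have hrA : M (rkS A) := TN.mem hM (TN.rkS hM v0) (u := fun _ => A) fun _ => hA
  have hsA : M (A.rank + 1).toZFSet := by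
    have e : (A.rank + 1).toZFSet = insert (rkS A) (rkS A) := by
      unfold rkS
      rw [Ordinal.toZFSet_add_one]
    rw [e]
    exact TN.mem hM (TN.ins hM v0 v0) (u := fun _ => rkS A) fun _ => hrA
  have h1 := mem_Dn.1 h _ hsA
  rw [Dk] at h1
  obtain ⟨n', n'', h2, h3, h4, h5, h6⟩ := h1.2 ⟨A.rank, Set.mem_Iio.2 (Order.lt_add_one_iff.2 le_rfl)⟩
  obtain ⟨y, hy, h7, h8⟩ := hA2 (ZFSet.pair (nS n') (nS n'')) (ZFSet.pair_mem_prod.2
    ⟨nS_mem_om _, nS_mem_om _⟩)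
  apply h8
  show NxV X W R (Ds X W d y.rank) (nS k) (nS n)
    (fst (ZFSet.pair (nS n') (nS n''))) (snd (ZFSet.pair (nS n') (nS n'')))
  rw [fst_pair, snd_pair]
  have hle : y.rank ≤ A.rank := (ZFSet.rank_lt_of_mem hy).le
  refine ⟨?_, ?_, (insV_iff hR hW _ _).2 h4, (insV_iff hR hW _ _).2 h5,
    (spdV_iff hR hW _ _).2 h6⟩
  · rw [← nS_succ, mem_Ds]
    exact dk_mono hle h2
  · rw [← nS_succ, mem_Ds]
    exact dk_mono hle h3

/-! ### the branches -/

section

variable (hR : Rk M X R d) (hW : Fam M X W d)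

/-- the node of the branch `z` at the level `j` -/
noncomputable def nd (X W R D : V) (k0 n0 : ℕ) (z : V) (j : ℕ) : ℕ :=
  nn (snd (snd (sq X W R D k0 n0 z j)))

/-- every element of `D` has a successor -/
def Rf (X W R D : V) : Prop := ∀ k n : ℕ, ZFSet.pair (nS k) (nS n) ∈ D →
  ∃ a ∈ om, ∃ b ∈ om, NxV X W R D (nS k) (nS n) a b

theorem next {k n : ℕ} (hD : Rf X W R D) (h : ZFSet.pair (nS k) (nS n) ∈ D) :
    ∃ a b : ℕ, nl X W R D (ZFSet.pair (nS k) (nS n)) = nS a ∧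
      nr X W R D (ZFSet.pair (nS k) (nS n)) = nS b ∧ NxV X W R D (nS k) (nS n) (nS a) (nS b) := by
  have h1 : ∃ a ∈ om, ∃ b ∈ om, NxV X W R D (fst (ZFSet.pair (nS k) (nS n)))
      (snd (ZFSet.pair (nS k) (nS n))) a b := by
    rw [fst_pair, snd_pair]
    exact hD k n h
  obtain ⟨h2, h3, h4⟩ := nl_nr h1
  obtain ⟨a, ha⟩ := mem_om.1 h2
  obtain ⟨b, hb⟩ := mem_om.1 h3
  rw [fst_pair, snd_pair, ha, hb] at h4
  exact ⟨a, b, ha, hb, h4⟩

theorem sq_eq {k0 n0 : ℕ} (hD : Rf X W R D) (h : ZFSet.pair (nS k0) (nS n0) ∈ D) (z : V) (j : ℕ) :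
    sq X W R D k0 n0 z j = ZFSet.pair (nS j) (ZFSet.pair (nS (k0 + j))
      (nS (nd X W R D k0 n0 z j))) ∧ ZFSet.pair (nS (k0 + j)) (nS (nd X W R D k0 n0 z j)) ∈ D := by
  induction j with
  | zero =>
    have e : sq X W R D k0 n0 z 0 = ZFSet.pair ∅ (ZFSet.pair (nS k0) (nS n0)) := rfl
    have e2 : nd X W R D k0 n0 z 0 = n0 := by
      unfold nd
      rw [e, snd_pair, snd_pair, nn_nS]
    rw [e2, e, nS_zero]
    exact ⟨rfl, h⟩
  | succ j ih =>
    obtain ⟨ih1, ih2⟩ := ih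
    obtain ⟨a, b, ha, hb, h1⟩ := next hD ih2
    have e : sq X W R D k0 n0 z (j + 1) = ZFSet.pair (nS (j + 1)) (ZFSet.pair (nS (k0 + (j + 1)))
        (sel (nS j ∈ z) (nS a) (nS b))) := by
      rw [sq, ih1, fst_pair, snd_pair, fst_pair, ha, hb, ← nS_succ, ← nS_succ, Nat.add_assoc]
    by_cases hz : nS j ∈ z
    · rw [sel_pos hz] at e
      have e2 : nd X W R D k0 n0 z (j + 1) = a := by
        unfold nd
        rw [e, snd_pair, snd_pair, nn_nS]
      rw [e2, e]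
      refine ⟨rfl, ?_⟩
      rw [← Nat.add_assoc, nS_succ]
      exact h1.1
    · rw [sel_neg hz] at e
      have e2 : nd X W R D k0 n0 z (j + 1) = b := by
        unfold nd
        rw [e, snd_pair, snd_pair, nn_nS]
      rw [e2, e]
      refine ⟨rfl, ?_⟩
      rw [← Nat.add_assoc, nS_succ]
      exact h1.2.1

theorem nd_succ {k0 n0 : ℕ} (hD : Rf X W R D) (h : ZFSet.pair (nS k0) (nS n0) ∈ D) (z : V)
    (j : ℕ) : ∃ a b : ℕ, nl X W R D (ZFSet.pair (nS (k0 + j)) (nS (nd X W R D k0 n0 z j))) = nS a ∧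
      nr X W R D (ZFSet.pair (nS (k0 + j)) (nS (nd X W R D k0 n0 z j))) = nS b ∧
      NxV X W R D (nS (k0 + j)) (nS (nd X W R D k0 n0 z j)) (nS a) (nS b) ∧
      (nS j ∈ z → nd X W R D k0 n0 z (j + 1) = a) ∧
      (nS j ∉ z → nd X W R D k0 n0 z (j + 1) = b) := by
  obtain ⟨h1, h2⟩ := sq_eq hD h z j
  obtain ⟨a, b, ha, hb, h3⟩ := next hD h2
  have e : sq X W R D k0 n0 z (j + 1) = ZFSet.pair (nS (j + 1)) (ZFSet.pair (nS (k0 + (j + 1)))
      (sel (nS j ∈ z) (nS a) (nS b))) := by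
    rw [sq, h1, fst_pair, snd_pair, fst_pair, ha, hb, ← nS_succ, ← nS_succ, Nat.add_assoc]
  refine ⟨a, b, ha, hb, h3, fun hz => ?_, fun hz => ?_⟩
  · rw [sel_pos hz] at e
    unfold nd
    rw [e, snd_pair, snd_pair, nn_nS]
  · rw [sel_neg hz] at e
    unfold nd
    rw [e, snd_pair, snd_pair, nn_nS]

include hR hW

theorem nd_ins {k0 n0 : ℕ} (hD : Rf X W R D) (h : ZFSet.pair (nS k0) (nS n0) ∈ D) (z : V)
    (j : ℕ) : Ins X W d (nd X W R D k0 n0 z (j + 1)) (nd X W R D k0 n0 z j) := by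
  obtain ⟨a, b, _, _, h1, h2, h3⟩ := nd_succ hD h z j
  by_cases hz : nS j ∈ z
  · rw [h2 hz]
    exact (insV_iff hR hW _ _).1 h1.2.2.1
  · rw [h3 hz]
    exact (insV_iff hR hW _ _).1 h1.2.2.2.1

omit hR in
theorem ins_sub (hd : MetricIn M X d) {a b : ℕ} (h : Ins X W d a b) :
    app W (nS a) ⊆ app W (nS b) := by
  obtain ⟨r, h⟩ := h
  intro x hx
  have hxX := (hW.o a).1 hx
  refine h x hx x hxX ?_
  rw [hd.self x hxX]
  simp

theorem nd_sub (hd : MetricIn M X d) {k0 n0 : ℕ} (hD : Rf X W R D)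
    (h : ZFSet.pair (nS k0) (nS n0) ∈ D) (z : V) {i j : ℕ} (hij : i ≤ j) :
    app W (nS (nd X W R D k0 n0 z j)) ⊆ app W (nS (nd X W R D k0 n0 z i)) := by
  induction j, hij using Nat.le_induction with
  | base => exact fun _ h => h
  | succ j hij ih => exact fun x hx => ih (ins_sub hW hd (nd_ins hR hW hD h z j) hx)

end

theorem sq_congr {k0 n0 : ℕ} {z z' : V} {j : ℕ} (h : ∀ i < j, nS i ∈ z ↔ nS i ∈ z')
    (hf : ∀ i, fst (sq X W R D k0 n0 z i) = nS i) :
    sq X W R D k0 n0 z j = sq X W R D k0 n0 z' j := by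
  induction j with
  | zero => rfl
  | succ j ih =>
    have ih' := ih fun i hi => h i (by omega)
    have e : (nS j ∈ z) = (nS j ∈ z') := propext (h j (by omega))
    rw [sq, sq, ← ih', hf j, e]

end KAaux

open KDaux KAaux

theorem pf_KA : T_KA := by
  intro M X W R d hZ hd hR hcp hW hker
  have hM := hZ.toZFm
  obtain ⟨k0, n0, hk0⟩ := hker
  have hX := hd.mem
  have hD := dn_mem hZ hd hR hW
  have hRf : Rf X W R (Dn M X W d) := fun k n h => refl_Dn hZ hd hR hW h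
  have h0 : ZFSet.pair (nS k0) (nS n0) ∈ Dn M X W d := mem_Dn.2 hk0
  set D := Dn M X W d with hDdef
  have hsq := tn_sq hM hX hW.n hR.n hD k0 n0
  have hsel : Rf X W R D := hRf
  -- the nodes are nodes
  have hnode : ∀ z j, Nd W d (k0 + j) (nd X W R D k0 n0 z j) := by
    intro z j
    have h1 := (sq_eq hRf h0 z j).2
    rw [hDdef, mem_Dn] at h1
    have hz : M (0 : Ordinal.{0}).toZFSet := by
      have e : ((0 : ℕ) : Ordinal.{0}).toZFSet = (0 : Ordinal.{0}).toZFSet := by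
        rw [Nat.cast_zero]
      rw [← e]
      exact TN.mem hM (TN.nS hM 0) (u := fun _ => X) fun _ => hd.mem
    have h2 := h1 0 hz
    rw [Dk] at h2
    exact h2.1
  -- the point of the branch
  have hpt : ∀ z, M z → ∃ x ∈ X, ∀ j, x ∈ app W (nS (nd X W R D k0 n0 z j)) := by
    intro z hz
    by_contra hcon
    have hC : M (imS om fun i => Un X W R (snd (snd (sq X W R D k0 n0 z (nn i))))) := by
      have h1 : TN M (fun u => imS om fun i => Un X W R (snd (snd (sq X W R D k0 n0 (u 0)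
          (nn i))))) :=
        TN.image (F := fun _ => om) (G := fun w => Un X W R (snd (snd (sq X W R D k0 n0 (w 1)
          (nn (w 0)))))) hM (TN.om hM) (tn_Un hM hX hW.n hR.n (TN.snd hM (TN.snd hM hsq)))
      exact TN.mem hM h1 (u := fun _ => z) fun _ => hz
    have hmem : ∀ j : ℕ, Un X W R (snd (snd (sq X W R D k0 n0 z (nn (nS j))))) =
        Un X W R (nS (nd X W R D k0 n0 z j)) := by
      intro j
      rw [nn_nS, (sq_eq hRf h0 z j).1, snd_pair, snd_pair]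
    obtain ⟨F, hF1, hF2, hF3⟩ := hcp _ hC (by
      intro U hU
      obtain ⟨i, hi, rfl⟩ := mem_imS.1 hU
      obtain ⟨j, rfl⟩ := mem_om.1 hi
      rw [hmem]
      exact open_Un hd hR hW _) (by
      intro x hx
      by_contra h2
      push Not at h2
      refine hcon ⟨x, hx, fun j => ?_⟩
      obtain ⟨r, hr⟩ := nd_ins hR hW hRf h0 z j
      have h3 := h2 _ (mem_imS.2 ⟨nS (j + 1), nS_mem_om _, rfl⟩)
      rw [hmem, mem_Un hR hW] at h3
      have h4 : ∃ y ∈ app W (nS (nd X W R D k0 n0 z (j + 1))), (r + 1) * d x y < 1 := by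
        by_contra h5
        push Not at h5
        exact h3 ⟨hx, r, h5⟩
      obtain ⟨y, hy, h5⟩ := h4
      have hyX := (hW.o _).1 hy
      refine hr y hy x hx ?_
      rw [hd.symm y hyX x hx]
      exact h5)
    have h2 : ∀ U ∈ F, ∃ j, U = Un X W R (nS (nd X W R D k0 n0 z j)) := by
      intro U hU
      obtain ⟨i, hi, rfl⟩ := mem_imS.1 (hF1 hU)
      obtain ⟨j, rfl⟩ := mem_om.1 hi
      exact ⟨j, hmem j⟩
    choose! J hJ using h2
    obtain ⟨w, hw⟩ := (hnode z (hF2.toFinset.sup J)).1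
    have hwX := (hW.o _).1 hw
    obtain ⟨U, hU, hwU⟩ := hF3 w hwX
    rw [hJ U hU, mem_Un hR hW] at hwU
    obtain ⟨_, r, hr⟩ := hwU
    have h3 := hr w (nd_sub hR hW hd hRf h0 z (Finset.le_sup (f := J)
      (hF2.mem_toFinset.2 hU)) hw)
    rw [hd.self w hwX] at h3
    norm_num at h3
  -- uniqueness
  have huniq : ∀ z, ∀ x ∈ X, ∀ y ∈ X, (∀ j, x ∈ app W (nS (nd X W R D k0 n0 z j))) →
      (∀ j, y ∈ app W (nS (nd X W R D k0 n0 z j))) → x = y := by
    intro z x hx y hy h1 h2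
    refine hd.eq x hx y hy ?_
    have hnn : 0 ≤ d x y := by
      have h3 := hd.tri x hx y hy x hx
      rw [hd.self x hx, hd.symm y hy x hx] at h3
      linarith
    by_contra hne
    have hpos : 0 < d x y := lt_of_le_of_ne hnn (Ne.symm hne)
    obtain ⟨N, hN⟩ := exists_nat_gt (1 / d x y)
    have h3 := (hnode z N).2 x (h1 N) y (h2 N)
    push_cast at h3
    rw [div_lt_iff₀ hpos] at hN
    have h4 : (0 : ℝ) ≤ k0 := by positivity
    nlinarith
  -- the graph
  have hfun : M ((ZFSet.prod (pwN M om) X).sep fun p => ∀ i ∈ om,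
      snd p ∈ app W (snd (snd (sq X W R D k0 n0 (fst p) (nn i))))) := by
    have h1 : DN M (fun u => ∀ i ∈ om,
        snd (u 0) ∈ app W (snd (snd (sq X W R D k0 n0 (fst (u 0)) (nn i))))) := by
      refine DN.ball (F := fun _ => om) (S := fun w =>
        snd (w 1) ∈ app W (snd (snd (sq X W R D k0 n0 (fst (w 1)) (nn (w 0)))))) hM
          (TN.om hM) ?_
      refine DN.mem hM (TN.snd hM (TN.var hM 1)) (TN.app hM (TN.cst hW.n) (TN.snd hM
        (TN.snd hM ?_)))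
      exact TN.at2 (P := fun a b => sq X W R D k0 n0 b (nn a)) hM hsq (TN.var hM 0)
        (TN.fst hM (TN.var hM 1))
    have hom : M om := TN.mem hM (TN.om hM) (u := fun _ => X) fun _ => hX
    have hpw := pwN_mem hZ hom
    have hprod : M (ZFSet.prod (pwN M om) X) :=
      TN.mem hM (TN.prod hM (TN.cst hpw) (TN.cst hX)) (u := fun _ => X) fun _ => hX
    exact h1.sepN hM hprod (u := fun _ => X) fun _ => hX
  have hgr : ∀ z x, ZFSet.pair z x ∈ ((ZFSet.prod (pwN M om) X).sep fun p => ∀ i ∈ om,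
      snd p ∈ app W (snd (snd (sq X W R D k0 n0 (fst p) (nn i))))) ↔
      z ∈ pwN M om ∧ x ∈ X ∧ ∀ j, x ∈ app W (nS (nd X W R D k0 n0 z j)) := by
    intro z x
    rw [ZFSet.mem_sep, ZFSet.pair_mem_prod, fst_pair, snd_pair, and_assoc]
    refine and_congr_right fun _ => and_congr_right fun _ => ?_
    constructor
    · intro h j
      have h1 := h (nS j) (nS_mem_om j)
      rw [nn_nS, (sq_eq hRf h0 z j).1, snd_pair, snd_pair] at h1
      exact h1
    · intro h i hi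
      obtain ⟨j, rfl⟩ := mem_om.1 hi
      rw [nn_nS, (sq_eq hRf h0 z j).1, snd_pair, snd_pair]
      exact h j
  refine ⟨_, hfun, ⟨fun p hp => ?_, fun z hz => ?_⟩, ?_⟩
  · exact (ZFSet.mem_sep.1 hp).1
  · have hz' : z ∈ pwN M om := hz
    obtain ⟨x, hx, h1⟩ := hpt z (mem_pwN.1 hz').2
    refine ⟨x, (hgr z x).2 ⟨hz', hx, h1⟩, fun y hy => ?_⟩
    obtain ⟨_, h2, h3⟩ := (hgr z y).1 hy
    exact huniq z y h2 x hx h3 h1
  · intro s t x hs ht
    obtain ⟨hs1, hx, hs2⟩ := (hgr s x).1 hs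
    obtain ⟨ht1, _, ht2⟩ := (hgr t x).1 ht
    by_contra hne
    -- the first difference
    have hex : ∃ j, ¬ (nS j ∈ s ↔ nS j ∈ t) := by
      by_contra h1
      push Not at h1
      apply hne
      ext y
      constructor
      · intro hy
        obtain ⟨j, rfl⟩ := mem_om.1 ((mem_pwN.1 hs1).1 hy)
        exact (h1 j).1 hy
      · intro hy
        obtain ⟨j, rfl⟩ := mem_om.1 ((mem_pwN.1 ht1).1 hy)
        exact (h1 j).2 hy
    classical
    have hj := Nat.find_spec hex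
    have hlt : ∀ i < Nat.find hex, (nS i ∈ s ↔ nS i ∈ t) := fun i hi => by
      have := Nat.find_min hex hi
      exact not_not.1 this
    set j := Nat.find hex with hjdef
    have hsqe : sq X W R D k0 n0 s j = sq X W R D k0 n0 t j := by
      refine sq_congr hlt fun i => ?_
      rw [(sq_eq hRf h0 s i).1, fst_pair]
    have hnde : nd X W R D k0 n0 s j = nd X W R D k0 n0 t j := by
      unfold nd
      rw [hsqe]
    obtain ⟨a, b, ha, hb, h1, h2, h3⟩ := nd_succ hRf h0 s j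
    obtain ⟨a', b', ha', hb', h1', h2', h3'⟩ := nd_succ hRf h0 t j
    rw [← hnde] at ha' hb'
    have e1 : a' = a := nS_inj.1 (ha'.symm.trans ha)
    have e2 : b' = b := nS_inj.1 (hb'.symm.trans hb)
    subst e1
    subst e2
    obtain ⟨r, hr⟩ := (spdV_iff hR hW _ _).1 h1.2.2.2.2
    have hcontra : x ∈ app W (nS a') → x ∈ app W (nS b') → False := by
      intro h4 h5
      have h6 := hr x h4 x h5
      rw [hd.self x hx] at h6
      norm_num at h6
    by_cases h4 : nS j ∈ s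
    · by_cases h5 : nS j ∈ t
      · exact hj ⟨fun _ => h5, fun _ => h4⟩
      · refine hcontra ?_ ?_
        · rw [← h2 h4]
          exact hs2 _
        · rw [← h3' h5]
          exact ht2 _
    · by_cases h5 : nS j ∈ t
      · refine hcontra ?_ ?_
        · rw [← h2' h5]
          exact ht2 _
        · rw [← h3 h4]
          exact hs2 _
      · exact hj ⟨fun h => absurd h h4, fun h => absurd h h5⟩

end CZ
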