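import Pool.Agent.H41.CZ.Defs
import Pool.Agent.H17.CM.ISO
import Pool.Agent.H58.SE.AA
import Pool.Agent.H59.SE.AC

/-!
# MP_308708_lc (transitive models): the choice of the classes rigidifies the profinite part
-/

set_option linter.unusedVariables false

open Ordinal Order Set
open scoped ZFSet

namespace CZ

open SF _root_.UZ

namespace St

variable {M : V → Prop} {X W R a : V} {d : V → V → ℝ}

theorem mem_tp {k : ℕ} {u : ℕ → V} {z : V} :
    z ∈ tp k u ↔ ∃ i < k, z = ZFSet.pair (nS i) (u i) := by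
  unfold tp
  rw [ZFSet.mem_range]
  constructor
  · rintro ⟨i, rfl⟩
    exact ⟨i, i.2, rfl⟩
  · rintro ⟨i, hi, rfl⟩
    exact ⟨⟨i, hi⟩, rfl⟩

theorem tp_succ (k : ℕ) (u : ℕ → V) : tp (k + 1) u = insert (ZFSet.pair (nS k) (u k)) (tp k u) := by
  ext z
  rw [ZFSet.mem_insert_iff, mem_tp, mem_tp]
  constructor
  · rintro ⟨i, hi, rfl⟩
    rcases Nat.lt_succ_iff_lt_or_eq.1 hi with h | h
    · exact Or.inr ⟨i, h, rfl⟩
    · subst h
      exact Or.inl rfl
  · rintro (rfl | ⟨i, hi, rfl⟩)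
    · exact ⟨k, Nat.lt_succ_self k, rfl⟩
    · exact ⟨i, Nat.lt_succ_of_lt hi, rfl⟩

theorem m_tp (hM : ZFm M) {u : ℕ → V} (hu : ∀ i, M (u i)) (k : ℕ) : M (tp k u) := by
  induction k with
  | zero =>
    have e : tp 0 u = ∅ := by
      ext z
      rw [mem_tp]
      constructor
      · rintro ⟨i, hi, _⟩
        exact absurd hi (Nat.not_lt_zero i)
      · intro h
        exact absurd h (ZFSet.notMem_empty _)
    rw [e]
    exact TN.mem hM (TN.empty hM) hu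
  | succ k ih =>
    rw [tp_succ]
    have h1 := TN.mem hM (TN.pair hM (TN.nS hM k) (TN.cst (hu k))) hu
    have h2 := TN.mem hM (TN.ins hM (TN.cst h1) (TN.cst ih)) hu
    exact h2

theorem isFunc_tp {k : ℕ} {u : ℕ → V} (hu : ∀ i, u i ∈ X) : ZFSet.IsFunc (nS k) X (tp k u) := by
  refine ⟨fun z hz => ?_, fun z hz => ?_⟩
  · obtain ⟨i, hi, rfl⟩ := mem_tp.1 hz
    exact ZFSet.pair_mem_prod.2 ⟨nS_mem_nS.2 hi, hu i⟩
  · obtain ⟨b, hb, rfl⟩ := Ordinal.mem_toZFSet_iff.1 hz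
    obtain ⟨i, rfl⟩ := Ordinal.lt_omega0.1 (hb.trans (Ordinal.natCast_lt_omega0 k))
    have hi : i < k := by exact_mod_cast hb
    refine ⟨u i, mem_tp.2 ⟨i, hi, rfl⟩, fun w hw => ?_⟩
    obtain ⟨j, _, h1⟩ := mem_tp.1 hw
    obtain ⟨h2, h3⟩ := ZFSet.pair_injective h1
    have h4 : i = j := nS_inj.1 h2
    subst h4
    exact h3

theorem app_tp {k : ℕ} {u : ℕ → V} {i : ℕ} (hi : i < k) : app (tp k u) (nS i) = u i := by
  refine app_eq ?_ (mem_tp.2 ⟨i, hi, rfl⟩)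
  intro x y z hy hz
  obtain ⟨j, _, h1⟩ := mem_tp.1 hy
  obtain ⟨j', _, h2⟩ := mem_tp.1 hz
  obtain ⟨h3, h4⟩ := ZFSet.pair_injective h1
  obtain ⟨h5, h6⟩ := ZFSet.pair_injective h2
  have h7 : j = j' := nS_inj.1 (h3.symm.trans h5)
  subst h7
  rw [h4, h6]

theorem tuple {k : ℕ} {t x0 : V} (h : ZFSet.IsFunc (nS k) X t) (hx0 : x0 ∈ X) :
    ∃ u : ℕ → V, (∀ i, u i ∈ X) ∧ t = tp k u := by
  classical
  refine ⟨fun i => if i < k then app t (nS i) else x0, fun i => ?_, ?_⟩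
  · show (if i < k then app t (nS i) else x0) ∈ X
    by_cases hi : i < k
    · rw [if_pos hi]
      exact app_mem h (nS_mem_nS.2 hi)
    · rw [if_neg hi]
      exact hx0
  · ext z
    rw [mem_tp]
    constructor
    · intro hz
      obtain ⟨y, hy, w, hw, rfl⟩ := ZFSet.mem_prod.1 (h.1 hz)
      obtain ⟨b, hb, rfl⟩ := Ordinal.mem_toZFSet_iff.1 hy
      obtain ⟨i, rfl⟩ := Ordinal.lt_omega0.1 (hb.trans (Ordinal.natCast_lt_omega0 k))
      have hi : i < k := by exact_mod_cast hb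
      refine ⟨i, hi, ?_⟩
      show ZFSet.pair (nS i) w = ZFSet.pair (nS i) (if i < k then app t (nS i) else x0)
      rw [if_pos hi, app_eq (svl_of_isFunc h) hz]
    · rintro ⟨i, hi, rfl⟩
      show ZFSet.pair (nS i) (if i < k then app t (nS i) else x0) ∈ t
      rw [if_pos hi]
      exact pair_app_mem h (nS_mem_nS.2 hi)

/-! ### the gap -/

theorem gap {Y : Type 1} [MetricSpace Y] [CompactSpace Y] (N : Subgroup (Y ≃ᵢ Y)) (E : Finset Y)
    (hE : ∀ g : Y ≃ᵢ Y, (∀ e ∈ E, g e = e) → g ∈ N)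
    (hN : ∃ ε > 0, ∀ g : Y ≃ᵢ Y, (∀ y, dist (g y) y < ε) → g ∈ N) :
    ∃ δ > 0, ∀ g : Y ≃ᵢ Y, (∀ e ∈ E, dist (g e) e < 3 * δ) → g ∈ N := by
  classical
  obtain ⟨τ, h1, h2, h3, h4, h5, h6⟩ := Pool.Agent.H17.CM.X_ISO Y
  obtain ⟨ε, hε, hN⟩ := hN
  -- `N` is open
  obtain ⟨S, hfin, hcov⟩ := Metric.totallyBounded_iff.1
    (isCompact_univ (X := Y)).totallyBounded (ε / 3) (by linarith)
  have hopen : IsOpen (N : Set (Y ≃ᵢ Y)) := by
    refine Subgroup.isOpen_of_mem_nhds N (g := 1) ?_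
    have ho : IsOpen (⋂ s ∈ S, {g : Y ≃ᵢ Y | dist (g s) s < ε / 3}) := by
      refine hfin.isOpen_biInter fun s hs => ?_
      exact isOpen_lt ((h5 s).dist continuous_const) continuous_const
    refine Filter.mem_of_superset (ho.mem_nhds ?_) ?_
    · simp only [Set.mem_iInter, Set.mem_ofPred_eq]
      intro s hs
      show dist s s < ε / 3
      rw [dist_self]
      linarith
    · intro g hg
      simp only [Set.mem_iInter, Set.mem_ofPred_eq] at hg
      refine hN g fun y => ?_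
      obtain ⟨s, hs, hy⟩ := Set.mem_iUnion₂.1 (hcov (Set.mem_univ y))
      rw [Metric.mem_ball] at hy
      have h7 := hg s hs
      have h8 := dist_triangle4 (g y) (g s) s y
      rw [g.dist_eq y s, dist_comm s y] at h8
      linarith
  have hcl : IsCompact ((N : Set (Y ≃ᵢ Y))ᶜ) := hopen.isClosed_compl.isCompact
  have hφ : Continuous fun g : Y ≃ᵢ Y => ∑ e ∈ E, dist (g e) e :=
    continuous_finsetSum _ fun e _ => (h5 e).dist continuous_const
  by_cases hne : ((N : Set (Y ≃ᵢ Y))ᶜ).Nonempty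
  · obtain ⟨g0, hg0, hmin⟩ := hcl.exists_isMinOn hne hφ.continuousOn
    have hpos : 0 < ∑ e ∈ E, dist (g0 e) e := by
      have h7 : 0 ≤ ∑ e ∈ E, dist (g0 e) e := Finset.sum_nonneg fun e _ => dist_nonneg
      refine lt_of_le_of_ne h7 fun h8 => hg0 (hE g0 fun e he => ?_)
      have h9 := (Finset.sum_eq_zero_iff_of_nonneg (fun e _ => dist_nonneg)).1 h8.symm e he
      exact dist_eq_zero.1 h9
    have hc : (0 : ℝ) < (E.card : ℝ) + 1 := by positivity
    refine ⟨(∑ e ∈ E, dist (g0 e) e) / (3 * ((E.card : ℝ) + 1)), by positivity, fun g hg => ?_⟩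
    by_contra hgN
    have h7 : ∑ e ∈ E, dist (g0 e) e ≤ ∑ e ∈ E, dist (g e) e := hmin hgN
    have h8 : ∑ e ∈ E, dist (g e) e ≤ (E.card : ℝ) *
        (3 * ((∑ e ∈ E, dist (g0 e) e) / (3 * ((E.card : ℝ) + 1)))) := by
      refine (Finset.sum_le_sum fun e he => (hg e he).le).trans_eq ?_
      rw [Finset.sum_const, _root_.nsmul_eq_mul]
    have h9 : (E.card : ℝ) * (3 * ((∑ e ∈ E, dist (g0 e) e) / (3 * ((E.card : ℝ) + 1)))) <
        ∑ e ∈ E, dist (g0 e) e := by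
      have e1 : (E.card : ℝ) * (3 * ((∑ e ∈ E, dist (g0 e) e) / (3 * ((E.card : ℝ) + 1)))) =
          (∑ e ∈ E, dist (g0 e) e) * (E.card / ((E.card : ℝ) + 1)) := by
        field_simp
      rw [e1]
      have h10 : (E.card : ℝ) / ((E.card : ℝ) + 1) < 1 := by
        rw [div_lt_one hc]
        linarith
      nlinarith
    linarith
  · refine ⟨1, one_pos, fun g _ => ?_⟩
    by_contra hgN
    exact hne ⟨g, hgN⟩

/-! ### steps -/

section

variable {Y : Type 1} [MetricSpace Y] (ι : V → Y)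

/-- the tuple `s` is near the translate of `f` by `h` -/
def Nr (k : ℕ) (f : ℕ → Y) (δ : ℝ) (s : V) (h : Y ≃ᵢ Y) : Prop :=
  ∀ i < k, dist (ι (app s (nS i))) (h (f i)) < δ

end

theorem stp_iff (hR : Rk M X R d) {k n : ℕ} {A s s' : V} (hs : ZFSet.IsFunc (nS k) X s)
    (hs' : ZFSet.IsFunc (nS k) X s') :
    Stp R (ZFSet.pair (nS k) (ZFSet.pair A (nS (n + 1)))) s s' ↔
      ∀ i < k, (n + 1) * d (app s (nS i)) (app s' (nS i)) < 1 := by
  unfold Stp
  rw [fst_pair, snd_pair, snd_pair]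
  constructor
  · intro h i hi
    obtain ⟨_, _, m, n', h1, h2⟩ := (hR.lt _ _ _).1 (h (nS i) (nS_mem_nS.2 hi))
    obtain ⟨h3, h4⟩ := ZFSet.pair_injective h1
    rw [nS_inj] at h3 h4
    subst h3
    subst h4
    push_cast at h2
    exact h2
  · intro h i hi
    obtain ⟨b, hb, rfl⟩ := Ordinal.mem_toZFSet_iff.1 hi
    obtain ⟨j, rfl⟩ := Ordinal.lt_omega0.1 (hb.trans (Ordinal.natCast_lt_omega0 k))
    have hj : j < k := by exact_mod_cast hb
    refine (hR.lt _ _ _).2 ⟨app_mem hs (nS_mem_nS.2 hj), app_mem hs' (nS_mem_nS.2 hj), 1, n + 1,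
      rfl, ?_⟩
    push_cast
    exact h j hj

end St

open St

theorem pf_STB (hSEP : T_SEP) (hCHN : T_CHN) : T_STB := by
  classical
  intro M X R d hZ hd hR Y _ _ ι hι a K F hB hS hcls N hnor hE hN g hg
  have hM := hZ.toZFm
  obtain ⟨E, hE1, hE2⟩ := hE
  obtain ⟨δ, hδ, hgap⟩ := gap N E hE2 hN
  by_cases hemp : E.Nonempty
  swap
  · exact hE2 g fun e he => absurd ⟨e, he⟩ hemp
  obtain ⟨p, hp⟩ := hemp
  choose! r hr1 hr2 using hE1
  let L : List Y := E.toList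
  have hL : ∀ i, L.getD i p ∈ E := by
    intro i
    by_cases hi : i < L.length
    · rw [List.getD_eq_getElem _ _ hi]
      exact Finset.mem_toList.1 (List.getElem_mem hi)
    · rw [List.getD_eq_default _ _ (by omega)]
      exact hp
  obtain ⟨k, hk⟩ : ∃ k, k = L.length := ⟨_, rfl⟩
  let x : ℕ → V := fun i => r (L.getD i p)
  let f : ℕ → Y := fun i => L.getD i p
  have hx : ∀ i, x i ∈ X := fun i => hr1 _ (hL i)
  have hxf : ∀ i, ι (x i) = f i := fun i => hr2 _ (hL i)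
  have hfE : ∀ e ∈ E, ∃ i < k, f i = e := by
    intro e he
    obtain ⟨i, hi, h1⟩ := List.getElem_of_mem (Finset.mem_toList.2 he)
    refine ⟨i, by rw [hk]; exact hi, ?_⟩
    show L.getD i p = e
    rw [List.getD_eq_getElem _ _ hi]
    exact h1
  have hgap2 : ∀ h h' : Y ≃ᵢ Y, (∀ i < k, dist (h (f i)) (h' (f i)) < 3 * δ) → h⁻¹ * h' ∈ N := by
    intro h h' h1
    refine hgap _ fun e he => ?_
    obtain ⟨i, hi, rfl⟩ := hfE e he
    have h2 := h1 i hi
    have h3 : dist ((h⁻¹ * h') (f i)) (f i) = dist (h' (f i)) (h (f i)) := by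
      show dist (h.symm (h' (f i))) (f i) = _
      rw [← h.dist_eq, h.apply_symm_apply]
    rw [h3, dist_comm]
    exact h2
  -- separation
  have happ0 : ∀ j : ℕ, app (∅ : V) (nS j) = ∅ := by
    intro j
    unfold app
    have e : ((⋃₀ (⋃₀ (∅ : V) : ZFSet) : ZFSet).sep fun y => ZFSet.pair (nS j) y ∈ (∅ : V)) = ∅ := by
      ext z
      rw [ZFSet.mem_sep]
      constructor
      · rintro ⟨_, h2⟩
        exact absurd h2 (ZFSet.notMem_empty _)
      · intro h2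
        exact absurd h2 (ZFSet.notMem_empty _)
    rw [e, ZFSet.sUnion_empty]
  obtain ⟨l, A, hA, ρ, hρ, h1, h2⟩ := hSEP M X R d hZ hd hR Y ι hι ∅ K F
    (fun j t ht => by
      rw [happ0] at ht
      exact absurd ht (ZFSet.notMem_empty _))
    ⟨hS.1, fun j hj => absurd (happ0 j) hj⟩ k f δ hδ
  have hPP : ∀ t, PP M R ∅ (nS l) A t ↔ PP M R ∅ ∅ A t := by
    intro t
    unfold PP
    refine exists_congr fun z => and_congr_right fun _ => and_congr_right fun _ => ?_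
    refine and_congr_left fun _ => ?_
    constructor
    · intro _ j hj
      exact absurd hj (ZFSet.notMem_empty _)
    · intro _ j hj
      obtain ⟨b, hb, rfl⟩ := Ordinal.mem_toZFSet_iff.1 hj
      obtain ⟨i, rfl⟩ := Ordinal.lt_omega0.1 (hb.trans (Ordinal.natCast_lt_omega0 l))
      exact Or.inl (happ0 i)
  obtain ⟨n, hn⟩ := exists_nat_one_div_lt hδ
  obtain ⟨c, hc⟩ : ∃ c, c = ZFSet.pair (nS k) (ZFSet.pair A (nS (n + 1))) := ⟨_, rfl⟩
  have hUc : ∀ t, t ∈ Uc M X R c ↔ M t ∧ ZFSet.IsFunc (nS k) X t ∧ PP M R ∅ ∅ A t := by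
    intro t
    unfold Uc Tu
    rw [hc, fst_pair, snd_pair, fst_pair, ZFSet.mem_sep, ZFSet.mem_sep, ZFSet.mem_sep,
      ZFSet.mem_powerset]
    constructor
    · rintro ⟨⟨⟨_, h3⟩, h4⟩, h5⟩
      exact ⟨h3, h4, h5⟩
    · rintro ⟨h3, h4, h5⟩
      exact ⟨⟨⟨h4.1, h3⟩, h4⟩, h5⟩
  have hmX : ∀ {u : ℕ → V}, (∀ i, u i ∈ X) → ∀ i, M (u i) := fun hu i =>
    hM.trans _ hd.mem _ (hu i)
  have hUtp : ∀ u : ℕ → V, (∀ i, u i ∈ X) → (∀ i < k, dist (ι (u i)) (f i) < ρ) →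
      tp k u ∈ Uc M X R c := by
    intro u hu h3
    exact (hUc _).2 ⟨m_tp hM (hmX hu) k, isFunc_tp hu, (hPP _).1 (h1 u hu h3)⟩
  have hnear : ∀ s ∈ Uc M X R c, ∃ h : Y ≃ᵢ Y, Nr ι k f δ s h := by
    intro s hs
    obtain ⟨h3, h4, h5⟩ := (hUc s).1 hs
    obtain ⟨u, hu, rfl⟩ := tuple h4 (hx 0)
    obtain ⟨h, h6, _⟩ := h2 u hu ((hPP _).2 h5)
    refine ⟨h, fun i hi => ?_⟩
    rw [app_tp hi]
    exact h6 i hi
  have hcM : M c := by
    have h3 : M A := by
      obtain ⟨-, -, -, -, -, -, -, -, h4⟩ := SE.pf_AA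
      exact hM.trans _ ((SE.pf_AC M hM).1 _ (h4 M hM)) _ hA
    rw [hc]
    exact TN.mem hM (TN.pair hM (TN.nS hM k) (TN.pair hM (TN.cst h3) (TN.nS hM (n + 1))))
      (u := fun _ => X) fun _ => hd.mem
  -- the steps
  have hfn : ∀ s ∈ Uc M X R c, ZFSet.IsFunc (nS k) X s := fun s hs => ((hUc s).1 hs).2.1
  have hstp : ∀ s ∈ Uc M X R c, ∀ s' ∈ Uc M X R c, (Stp R c s s' ↔
      ∀ i < k, (n + 1) * d (app s (nS i)) (app s' (nS i)) < 1) := by
    intro s hs s' hs'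
    rw [hc]
    exact stp_iff hR (hfn s hs) (hfn s' hs')
  have hsX : ∀ s ∈ Uc M X R c, ∀ i < k, app s (nS i) ∈ X := fun s hs i hi =>
    app_mem (hfn s hs) (nS_mem_nS.2 hi)
  have hn1 : (0 : ℝ) < n + 1 := by positivity
  have hstep : ∀ s ∈ Uc M X R c, ∀ s' ∈ Uc M X R c, Stp R c s s' → ∀ h h' : Y ≃ᵢ Y,
      Nr ι k f δ s h → Nr ι k f δ s' h' → h⁻¹ * h' ∈ N := by
    intro s hs s' hs' h3 h h' h4 h5
    refine hgap2 h h' fun i hi => ?_
    have h6 := (hstp s hs s' hs').1 h3 i hi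
    have h7 : d (app s (nS i)) (app s' (nS i)) < δ := by
      have h8 : d (app s (nS i)) (app s' (nS i)) < 1 / (n + 1) := by
        rw [lt_div_iff₀ hn1]
        linarith
      linarith
    rw [← hι.dist _ (hsX s hs i hi) _ (hsX s' hs' i hi)] at h7
    have h8 := dist_triangle4 (h (f i)) (ι (app s (nS i))) (ι (app s' (nS i))) (h' (f i))
    have h9 := h4 i hi
    have h10 := h5 i hi
    rw [dist_comm] at h9
    linarith
  have hself : ∀ s, ∀ h h' : Y ≃ᵢ Y, Nr ι k f δ s h → Nr ι k f δ s h' → h⁻¹ * h' ∈ N := by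
    intro s h h' h4 h5
    refine hgap2 h h' fun i hi => ?_
    have h8 := dist_triangle (h (f i)) (ι (app s (nS i))) (h' (f i))
    have h9 := h4 i hi
    have h10 := h5 i hi
    rw [dist_comm] at h9
    linarith
  have hchain : ∀ s0 s, Relation.ReflTransGen (fun s s' => s ∈ Uc M X R c ∧ s' ∈ Uc M X R c ∧
      Stp R c s s') s0 s → ∀ h h' : Y ≃ᵢ Y, Nr ι k f δ s0 h → Nr ι k f δ s h' →
        h⁻¹ * h' ∈ N := by
    intro s0 s hs
    induction hs with
    | refl => exact fun h h' => hself s0 h h'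
    | @tail b c' _ h4 ih =>
      intro h h' h5 h6
      obtain ⟨h'', h7⟩ := hnear b h4.1
      have h8 := ih h h'' h5 h7
      have h9 := hstep b h4.1 c' h4.2.1 h4.2.2 h'' h' h7 h6
      have h10 := N.mul_mem h8 h9
      have e : h⁻¹ * h'' * (h''⁻¹ * h') = h⁻¹ * h' := by group
      rwa [e] at h10
  -- the class
  obtain ⟨j, hj⟩ := hcls k n A hA
  rw [← hc] at hj
  unfold Fm at hj
  rw [ZFSet.mem_union] at hj
  have hx0 : tp k x ∈ Uc M X R c := hUtp x hx fun i _ => by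
    rw [hxf i, dist_self]
    exact hρ
  rcases hj with hj | hj
  swap
  · have h3 := (ZFSet.mem_sep.1 hj).2
    rw [h3] at hx0
    exact absurd hx0 (ZFSet.notMem_empty _)
  obtain ⟨t0, ht0, hj2⟩ := mem_imS.1 hj
  have hC := hCHN M X R d hZ hd hR c hcM t0 ht0
  have hmem : ∀ s, s ∈ app a (nS j) ↔ s ∈ Uc M X R c ∧ Relation.ReflTransGen
      (fun s s' => s ∈ Uc M X R c ∧ s' ∈ Uc M X R c ∧ Stp R c s s') t0 s := by
    intro s
    rw [← hj2, ZFSet.mem_sep, hC s]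
  have hsym : ∀ s s', (s ∈ Uc M X R c ∧ s' ∈ Uc M X R c ∧ Stp R c s s') →
      (s' ∈ Uc M X R c ∧ s ∈ Uc M X R c ∧ Stp R c s' s) := by
    rintro s s' ⟨h3, h4, h5⟩
    refine ⟨h4, h3, (hstp s' h4 s h3).2 fun i hi => ?_⟩
    rw [hd.symm _ (hsX s' h4 i hi) _ (hsX s h3 i hi)]
    exact (hstp s h3 s' h4).1 h5 i hi
  have hne : app a (nS j) ≠ ∅ := by
    intro h3
    have h4 := (hmem t0).2 ⟨ht0, Relation.ReflTransGen.refl⟩
    rw [h3] at h4
    exact ZFSet.notMem_empty _ h4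
  have hFj := hS.2 j hne
  -- the length
  have hKj : K j = k := by
    have h3 := hfn _ ((hmem _).1 hFj).1
    apply le_antisymm
    · by_contra h4
      push Not at h4
      have h5 := h3.1 (mem_tp.2 ⟨k, h4, rfl⟩)
      have h6 := nS_mem_nS.1 (ZFSet.pair_mem_prod.1 h5).1
      exact lt_irrefl _ h6
    · by_contra h4
      push Not at h4
      obtain ⟨w, hw, _⟩ := h3.2 (nS (K j)) (nS_mem_nS.2 h4)
      obtain ⟨i, hi, h5⟩ := mem_tp.1 hw
      have h6 := nS_inj.1 (ZFSet.pair_injective h5).1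
      omega
  rw [hKj] at hFj
  obtain ⟨t, ht, h3, h4⟩ := hg j hne δ hδ
  rw [hKj] at h3 h4
  obtain ⟨hF1, hF2⟩ := (hmem _).1 hFj
  obtain ⟨hT1, hT2⟩ := (hmem _).1 h3
  have hrel : Relation.ReflTransGen (fun s s' => s ∈ Uc M X R c ∧ s' ∈ Uc M X R c ∧
      Stp R c s s') (tp k (F j)) (tp k t) := by
    have hsymm : ∀ s s', Relation.ReflTransGen (fun s s' => s ∈ Uc M X R c ∧ s' ∈ Uc M X R c ∧
        Stp R c s s') s s' → Relation.ReflTransGen (fun s s' => s ∈ Uc M X R c ∧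
          s' ∈ Uc M X R c ∧ Stp R c s s') s' s := by
      intro s s' h
      induction h with
      | refl => exact Relation.ReflTransGen.refl
      | @tail b c' _ h4 ih => exact Relation.ReflTransGen.head (hsym _ _ h4) ih
    exact (hsymm _ _ hF2).trans hT2
  obtain ⟨h, hh⟩ := hnear _ hF1
  obtain ⟨m, hm⟩ := hnear _ hT1
  have h5 : h⁻¹ * m ∈ N := hchain _ _ hrel h m hh hm
  have h6 : m⁻¹ * (g * h) ∈ N := by
    refine hgap2 m (g * h) fun i hi => ?_
    have h7 := hm i hi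
    have h8 := hh i hi
    have h9 := h4 i hi
    rw [app_tp hi] at h7 h8
    have h10 := dist_triangle4 (m (f i)) (ι (t i)) (g (ι (F j i))) (g (h (f i)))
    rw [g.dist_eq, dist_comm (m (f i)) (ι (t i))] at h10
    show dist (m (f i)) (g (h (f i))) < 3 * δ
    linarith
  have h7 := N.mul_mem h5 h6
  have h8 := hnor.conj_mem _ h7 h
  have e : h * (h⁻¹ * m * (m⁻¹ * (g * h))) * h⁻¹ = g := by group
  rwa [e] at h8

end CZ
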