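import Pool.Agent.H41.CZ.MAIN
import Pool.Agent.H41.CZ.KA
import Pool.Agent.H41.CZ.STB
import Pool.Agent.H14.CZ.SEP
import Pool.Agent.H14.CZ.CHN
import Pool.Agent.H65.CZ.FAM
import Pool.Agent.H65.CZ.FIN
import Pool.Agent.H23.CZ.WF
import Pool.Agent.H58.CZ.CMP
import Pool.Agent.H58.CZ.RK
import Pool.Agent.H50.CZ.KB
import Pool.Agent.H56.CZ.KC

/-!
# MP_308708_lc (transitive models): the main theorem
-/

namespace CZ

theorem mainL : T_MAINL :=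
  mainL_of pf_CMP pf_RK pf_SEP pf_WF pf_FAM (pf_FIN pf_CHN) (pf_STB pf_SEP pf_CHN) pf_KA
    (H50.pf_KB pf_KD) H56KC.pf_KC

end CZ
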