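import Pool.Agent.H41.CZ.Defs

/-!
# MP_308708_lc (transitive models): the derivatives are definable
-/

set_option linter.unusedVariables false

open Ordinal Order Set
open scoped ZFSet

namespace CZ

open SF UZ

namespace KDaux

variable {M : V → Prop} {X W R : V} {d : V → V → ℝ} {f g : (ℕ → V) → V}

/-- nodes, in `M` -/
def NdV (W R k n : V) : Prop := (app W n).Nonempty ∧ ∀ x ∈ app W n, ∀ y ∈ app W n,
  ZFSet.pair (nS 1) (ZFSet.pair x (ZFSet.pair y (ZFSet.pair (nS 1) (insert k k)))) ∉ R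

def InsV (X W R n' n : V) : Prop := ∃ r ∈ om, ∀ x ∈ app W n', ∀ y ∈ X,
  ZFSet.pair (nS 0) (ZFSet.pair x (ZFSet.pair y (ZFSet.pair (nS 1) (insert r r)))) ∈ R →
    y ∈ app W n

def SpdV (W R n' n : V) : Prop := ∃ r ∈ om, ∀ x ∈ app W n', ∀ y ∈ app W n,
  ZFSet.pair (nS 0) (ZFSet.pair x (ZFSet.pair y (ZFSet.pair (nS 1) (insert r r)))) ∉ R

theorem rk_lt (hR : Rk M X R d) {x y : V} (hx : x ∈ X) (hy : y ∈ X) (m n : ℕ) :
    ZFSet.pair (nS 0) (ZFSet.pair x (ZFSet.pair y (ZFSet.pair (nS m) (nS n)))) ∈ R ↔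
      n * d x y < m := by
  rw [hR.lt]
  constructor
  · rintro ⟨_, _, m', n', h1, h2⟩
    obtain ⟨h3, h4⟩ := ZFSet.pair_injective h1
    rw [nS_inj] at h3 h4
    subst h3
    subst h4
    exact h2
  · intro h
    exact ⟨hx, hy, m, n, rfl, h⟩

theorem rk_gt (hR : Rk M X R d) {x y : V} (hx : x ∈ X) (hy : y ∈ X) (m n : ℕ) :
    ZFSet.pair (nS 1) (ZFSet.pair x (ZFSet.pair y (ZFSet.pair (nS m) (nS n)))) ∈ R ↔
      m < n * d x y := by
  rw [hR.gt]
  constructor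
  · rintro ⟨_, _, m', n', h1, h2⟩
    obtain ⟨h3, h4⟩ := ZFSet.pair_injective h1
    rw [nS_inj] at h3 h4
    subst h3
    subst h4
    exact h2
  · intro h
    exact ⟨hx, hy, m, n, rfl, h⟩

theorem ndV_iff (hR : Rk M X R d) (hW : Fam M X W d) (k n : ℕ) :
    NdV W R (nS k) (nS n) ↔ Nd W d k n := by
  have hs := (hW.o n).1
  unfold NdV Nd
  refine and_congr_right fun _ => ?_
  refine forall_congr' fun x => forall_congr' fun hx => forall_congr' fun y =>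
    forall_congr' fun hy => ?_
  rw [← nS_succ, rk_gt hR (hs hx) (hs hy), not_lt]
  push_cast
  exact Iff.rfl

theorem insV_iff (hR : Rk M X R d) (hW : Fam M X W d) (n' n : ℕ) :
    InsV X W R (nS n') (nS n) ↔ Ins X W d n' n := by
  have hs := (hW.o n').1
  unfold InsV Ins
  constructor
  · rintro ⟨r', hr, h⟩
    obtain ⟨r, rfl⟩ := mem_om.1 hr
    refine ⟨r, fun x hx y hy h1 => h x hx y hy ?_⟩
    rw [← nS_succ, rk_lt hR (hs hx) hy]
    push_cast
    exact h1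
  · rintro ⟨r, h⟩
    refine ⟨nS r, mem_om.2 ⟨r, rfl⟩, fun x hx y hy h1 => h x hx y hy ?_⟩
    rw [← nS_succ, rk_lt hR (hs hx) hy] at h1
    push_cast at h1
    exact h1

theorem spdV_iff (hR : Rk M X R d) (hW : Fam M X W d) (n' n : ℕ) :
    SpdV W R (nS n') (nS n) ↔ Spd W d n' n := by
  have hs := (hW.o n').1
  have hs' := (hW.o n).1
  unfold SpdV Spd
  constructor
  · rintro ⟨r', hr, h⟩
    obtain ⟨r, rfl⟩ := mem_om.1 hr
    refine ⟨r, fun x hx y hy => ?_⟩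
    have h1 := h x hx y hy
    rw [← nS_succ, rk_lt hR (hs hx) (hs' hy), not_lt] at h1
    push_cast at h1
    exact h1
  · rintro ⟨r, h⟩
    refine ⟨nS r, mem_om.2 ⟨r, rfl⟩, fun x hx y hy => ?_⟩
    rw [← nS_succ, rk_lt hR (hs hx) (hs' hy), not_lt]
    push_cast
    exact h x hx y hy

/-! ### definability -/

theorem tn_q (hM : ZFm M) (hR : M R) {f1 f2 f3 : (ℕ → V) → V} (i : ℕ) (h1 : TN M f1)
    (h2 : TN M f2) (h3 : TN M f3) :
    DN M (fun u => ZFSet.pair (nS i) (ZFSet.pair (f1 u) (ZFSet.pair (f2 u) (ZFSet.pair (nS 1)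
      (insert (f3 u) (f3 u))))) ∈ R) :=
  DN.mem hM (TN.pair hM (TN.nS hM i) (TN.pair hM h1 (TN.pair hM h2 (TN.pair hM (TN.nS hM 1)
    (TN.ins hM h3 h3))))) (TN.cst hR)

theorem dn_ndV (hM : ZFm M) (hW : M W) (hR : M R) (hf : TN M f) (hg : TN M g) :
    DN M (fun u => NdV W R (f u) (g u)) := by
  have hA := TN.app hM (TN.cst hW) hg
  refine (DN.of1 hM (P := fun _ x => x.Nonempty) (Dfb.ne (Tm.var 0)) hA).and hM ?_
  refine DN.ball (S := fun w => ∀ y ∈ app W (g fun i => w (i + 1)),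
    ZFSet.pair (nS 1) (ZFSet.pair (w 0) (ZFSet.pair y (ZFSet.pair (nS 1)
      (insert (f fun i => w (i + 1)) (f fun i => w (i + 1)))))) ∉ R) hM hA ?_
  refine DN.ball (F := fun w => app W (g fun i => w (i + 1))) (S := fun w =>
    ZFSet.pair (nS 1) (ZFSet.pair (w 1) (ZFSet.pair (w 0) (ZFSet.pair (nS 1)
      (insert (f fun i => w (i + 2)) (f fun i => w (i + 2)))))) ∉ R) hM
        (TN.app hM (TN.cst hW) (hg.rn (fun i => i + 1))) ?_
  exact (tn_q hM hR 1 (TN.var hM 1) (TN.var hM 0) (hf.rn (fun i => i + 2))).not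

theorem dn_insV (hM : ZFm M) (hX : M X) (hW : M W) (hR : M R) (hf : TN M f) (hg : TN M g) :
    DN M (fun u => InsV X W R (f u) (g u)) := by
  refine DN.bex (F := fun _ => om) (S := fun w => ∀ x ∈ app W (f fun i => w (i + 1)), ∀ y ∈ X,
    ZFSet.pair (nS 0) (ZFSet.pair x (ZFSet.pair y (ZFSet.pair (nS 1) (insert (w 0) (w 0))))) ∈ R →
      y ∈ app W (g fun i => w (i + 1))) hM (TN.om hM) ?_
  refine DN.ball (F := fun w => app W (f fun i => w (i + 1))) (S := fun w => ∀ y ∈ X,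
    ZFSet.pair (nS 0) (ZFSet.pair (w 0) (ZFSet.pair y (ZFSet.pair (nS 1)
      (insert (w 1) (w 1))))) ∈ R → y ∈ app W (g fun i => w (i + 2))) hM
        (TN.app hM (TN.cst hW) (hf.rn (fun i => i + 1))) ?_
  refine DN.ball (F := fun _ => X) (S := fun w =>
    ZFSet.pair (nS 0) (ZFSet.pair (w 1) (ZFSet.pair (w 0) (ZFSet.pair (nS 1)
      (insert (w 2) (w 2))))) ∈ R → w 0 ∈ app W (g fun i => w (i + 3))) hM (TN.cst hX) ?_
  exact (tn_q hM hR 0 (TN.var hM 1) (TN.var hM 0) (TN.var hM 2)).imp hM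
    (DN.mem hM (TN.var hM 0) (TN.app hM (TN.cst hW) (hg.rn (fun i => i + 3))))

theorem dn_spdV (hM : ZFm M) (hW : M W) (hR : M R) (hf : TN M f) (hg : TN M g) :
    DN M (fun u => SpdV W R (f u) (g u)) := by
  refine DN.bex (F := fun _ => om) (S := fun w => ∀ x ∈ app W (f fun i => w (i + 1)),
    ∀ y ∈ app W (g fun i => w (i + 1)),
    ZFSet.pair (nS 0) (ZFSet.pair x (ZFSet.pair y (ZFSet.pair (nS 1)
      (insert (w 0) (w 0))))) ∉ R) hM (TN.om hM) ?_
  refine DN.ball (F := fun w => app W (f fun i => w (i + 1))) (S := fun w =>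
    ∀ y ∈ app W (g fun i => w (i + 2)),
    ZFSet.pair (nS 0) (ZFSet.pair (w 0) (ZFSet.pair y (ZFSet.pair (nS 1)
      (insert (w 1) (w 1))))) ∉ R) hM
        (TN.app hM (TN.cst hW) (hf.rn (fun i => i + 1))) ?_
  refine DN.ball (F := fun w => app W (g fun i => w (i + 2))) (S := fun w =>
    ZFSet.pair (nS 0) (ZFSet.pair (w 1) (ZFSet.pair (w 0) (ZFSet.pair (nS 1)
      (insert (w 2) (w 2))))) ∉ R) hM (TN.app hM (TN.cst hW) (hg.rn (fun i => i + 2))) ?_
  exact (tn_q hM hR 0 (TN.var hM 1) (TN.var hM 0) (TN.var hM 2)).not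

/-- the pairs `(n', n'')` of nodes inside of `n`, in the set `D` for the level `k + 1` -/
def NxV (X W R D k n n' n'' : V) : Prop := ZFSet.pair (insert k k) n' ∈ D ∧
  ZFSet.pair (insert k k) n'' ∈ D ∧ InsV X W R n' n ∧ InsV X W R n'' n ∧ SpdV W R n' n''

theorem dn_nxV (hM : ZFm M) (hX : M X) (hW : M W) (hR : M R) {f0 f1 f2 f3 f4 : (ℕ → V) → V}
    (h0 : TN M f0) (h1 : TN M f1) (h2 : TN M f2) (h3 : TN M f3) (h4 : TN M f4) :
    DN M (fun u => NxV X W R (f0 u) (f1 u) (f2 u) (f3 u) (f4 u)) :=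
  (DN.mem hM (TN.pair hM (TN.ins hM h1 h1) h3) h0).and hM
    ((DN.mem hM (TN.pair hM (TN.ins hM h1 h1) h4) h0).and hM
      ((dn_insV hM hX hW hR h3 h2).and hM ((dn_insV hM hX hW hR h4 h2).and hM
        (dn_spdV hM hW hR h3 h4))))

end KDaux

open KDaux

theorem pf_KD : T_KD := by
  intro M X W R d hZ hd hR hW
  have hM := hZ.toZFm
  have nX := hd.mem
  have nW := hW.n
  have nR := hR.n
  have v0 := TN.var (N := M) hM 0
  have v1 := TN.var (N := M) hM 1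
  have v2 := TN.var (N := M) hM 2
  have v3 := TN.var (N := M) hM 3
  have v4 := TN.var (N := M) hM 4
  refine TN.recu (E := fun u => rkS (u 0)) (G := fun w => (ZFSet.prod om om).sep fun z =>
    NdV W R (fst z) (snd z) ∧ ∀ β ∈ dm (w 0), ∃ n' ∈ om, ∃ n'' ∈ om,
      NxV X W R (app (w 0) β) (fst z) (snd z) n' n'') hM (TN.rkS hM v0) ?_ ?_ ?_
  · refine TN.sep (S := fun w => NdV W R (fst (w 0)) (snd (w 0)) ∧ ∀ β ∈ dm (w 1), ∃ n' ∈ om,
      ∃ n'' ∈ om, NxV X W R (app (w 1) β) (fst (w 0)) (snd (w 0)) n' n'') hM ?_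
        (TN.prod hM (TN.om hM) (TN.om hM))
    refine (dn_ndV hM nW nR (TN.fst hM v0) (TN.snd hM v0)).and hM ?_
    refine DN.ball (F := fun w => dm (w 1)) (S := fun w => ∃ n' ∈ om, ∃ n'' ∈ om,
      NxV X W R (app (w 2) (w 0)) (fst (w 1)) (snd (w 1)) n' n'') hM (TN.dm hM v1) ?_
    refine DN.bex (F := fun _ => om) (S := fun w => ∃ n'' ∈ om,
      NxV X W R (app (w 3) (w 1)) (fst (w 2)) (snd (w 2)) (w 0) n'') hM (TN.om hM) ?_
    refine DN.bex (F := fun _ => om) (S := fun w =>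
      NxV X W R (app (w 4) (w 2)) (fst (w 3)) (snd (w 3)) (w 1) (w 0)) hM (TN.om hM) ?_
    exact dn_nxV hM nX nW nR (TN.app hM v4 v2) (TN.fst hM v3) (TN.snd hM v3) v1 v0
  · intro u hu y hy
    obtain ⟨α, hα, rfl⟩ := Ordinal.mem_toZFSet_iff.1 hy
    rw [Ordinal.rank_toZFSet]
    exact hα
  · intro u hu
    show Ds X W d (u 0).rank = (ZFSet.prod om om).sep fun z =>
      NdV W R (fst z) (snd z) ∧ ∀ β ∈ dm (resS (rkS (u 0)) fun y => Ds X W d y.rank),
        ∃ n' ∈ om, ∃ n'' ∈ om, NxV X W R (app (resS (rkS (u 0)) fun y => Ds X W d y.rank) β)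
          (fst z) (snd z) n' n''
    unfold Ds
    ext z
    rw [ZFSet.mem_sep, ZFSet.mem_sep]
    refine and_congr_right fun hz => ?_
    obtain ⟨k', hk, n', hn, rfl⟩ := ZFSet.mem_prod.1 hz
    obtain ⟨k, rfl⟩ := mem_om.1 hk
    obtain ⟨n, rfl⟩ := mem_om.1 hn
    rw [fst_pair, snd_pair, ndV_iff hR hW, dm_resS]
    have hp : ∀ (β : Ordinal.{0}) (a b : ℕ), ZFSet.pair (nS a) (nS b) ∈
        (ZFSet.prod om om).sep (fun z => ∃ k n : ℕ, z = ZFSet.pair (nS k) (nS n) ∧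
          Dk X W d β k n) ↔ Dk X W d β a b := by
      intro β a b
      rw [ZFSet.mem_sep]
      constructor
      · rintro ⟨_, k, n, h1, h2⟩
        obtain ⟨h3, h4⟩ := ZFSet.pair_injective h1
        rw [nS_inj] at h3 h4
        subst h3
        subst h4
        exact h2
      · intro h
        exact ⟨ZFSet.pair_mem_prod.2 ⟨mem_om.2 ⟨a, rfl⟩, mem_om.2 ⟨b, rfl⟩⟩, a, b, rfl, h⟩
    have key : (∃ k_1 n_1 : ℕ, ZFSet.pair (nS k) (nS n) = ZFSet.pair (nS k_1) (nS n_1) ∧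
        Dk X W d (u 0).rank k_1 n_1) ↔ Dk X W d (u 0).rank k n := by
      constructor
      · rintro ⟨k1, n1, h1, h2⟩
        obtain ⟨h3, h4⟩ := ZFSet.pair_injective h1
        rw [nS_inj] at h3 h4
        subst h3
        subst h4
        exact h2
      · intro h
        exact ⟨k, n, rfl, h⟩
    rw [key, Dk]
    refine and_congr_right fun _ => ?_
    constructor
    · intro h β hβ
      obtain ⟨β', hβ', rfl⟩ := Ordinal.mem_toZFSet_iff.1 hβ
      obtain ⟨n', n'', h1, h2, h3, h4, h5⟩ := h ⟨β', hβ'⟩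
      refine ⟨nS n', mem_om.2 ⟨n', rfl⟩, nS n'', mem_om.2 ⟨n'', rfl⟩, ?_⟩
      unfold NxV
      rw [app_resS hβ, Ordinal.rank_toZFSet, ← nS_succ, hp, hp, insV_iff hR hW, insV_iff hR hW,
        spdV_iff hR hW]
      exact ⟨h1, h2, h3, h4, h5⟩
    · rintro h ⟨β', hβ'⟩
      have hβ : β'.toZFSet ∈ rkS (u 0) := toZFSet_mem.2 hβ'
      obtain ⟨n1, h1, n2, h2, h3⟩ := h _ hβ
      obtain ⟨n', rfl⟩ := mem_om.1 h1
      obtain ⟨n'', rfl⟩ := mem_om.1 h2
      unfold NxV at h3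
      rw [app_resS hβ, Ordinal.rank_toZFSet, ← nS_succ, hp, hp, insV_iff hR hW, insV_iff hR hW,
        spdV_iff hR hW] at h3
      exact ⟨n', n'', h3⟩

end CZ
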