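import Pool.Agent.H41.CZ.Defs
import Pool.Agent.H58.SE.AA
import Pool.Agent.H59.SE.AC

/-!
# MP_308708_lc (transitive models): the assembly
-/

set_option linter.unusedVariables false

open Ordinal Order Set
open scoped ZFSet

namespace CZ

open SF UZ

/-- countable choice for finite subsets of `S` holds in `M` -/
def CACfinOn (M : V → Prop) (S : V) : Prop := ∀ A : ℕ → V, M (seqS A) →
  (∀ n, (A n : Set V).Finite ∧ (A n).Nonempty ∧ A n ⊆ S) →
    ∃ a : ℕ → V, M (seqS a) ∧ ∀ n, a n ∈ A n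

/-- the main theorem, local form -/
def T_MAINL : Prop := ∀ M : V → Prop, ZF M → ∀ X d, MetricIn M X d → CompactIn M X d →
  CACfinOn M (ZFSet.powerset (ZFSet.powerset (ZFSet.prod om X))) → ¬ InjIn M X om →
    InjIn M ((ZFSet.powerset om).sep M) X

namespace Mn

variable {M : V → Prop} {X W R a : V} {d : V → V → ℝ}

theorem app_of_not {t x : V} (h : ∀ y, ZFSet.pair x y ∉ t) : app t x = ∅ := by
  unfold app
  have e : ((⋃₀ (⋃₀ t : ZFSet) : ZFSet).sep fun y => ZFSet.pair x y ∈ t) = ∅ := by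
    ext z
    rw [ZFSet.mem_sep]
    constructor
    · rintro ⟨_, h2⟩
      exact absurd h2 (h z)
    · intro h2
      exact absurd h2 (ZFSet.notMem_empty _)
  rw [e, ZFSet.sUnion_empty]

/-! ### tuples -/

theorem mem_tp {k : ℕ} {u : ℕ → V} {z : V} :
    z ∈ tp k u ↔ ∃ i < k, z = ZFSet.pair (nS i) (u i) := by
  unfold tp
  rw [ZFSet.mem_range]
  constructor
  · rintro ⟨i, rfl⟩
    exact ⟨i, i.2, rfl⟩
  · rintro ⟨i, hi, rfl⟩
    exact ⟨⟨i, hi⟩, rfl⟩

theorem tp_inj {k : ℕ} {u v : ℕ → V} (h : tp k u = tp k v) {i : ℕ} (hi : i < k) : u i = v i := by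
  have h1 : ZFSet.pair (nS i) (u i) ∈ tp k v := by
    rw [← h]
    exact mem_tp.2 ⟨i, hi, rfl⟩
  obtain ⟨j, hj, h2⟩ := mem_tp.1 h1
  obtain ⟨h3, h4⟩ := ZFSet.pair_injective h2
  rw [nS_inj] at h3
  subst h3
  exact h4

theorem tp_succ (k : ℕ) (u : ℕ → V) : tp (k + 1) u = insert (ZFSet.pair (nS k) (u k)) (tp k u) := by
  ext z
  rw [ZFSet.mem_insert_iff, mem_tp, mem_tp]
  constructor
  · rintro ⟨i, hi, rfl⟩
    rcases Nat.lt_succ_iff_lt_or_eq.1 hi with h | h
    · exact Or.inr ⟨i, h, rfl⟩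
    · subst h
      exact Or.inl rfl
  · rintro (rfl | ⟨i, hi, rfl⟩)
    · exact ⟨k, Nat.lt_succ_self k, rfl⟩
    · exact ⟨i, Nat.lt_succ_of_lt hi, rfl⟩

theorem m_tp (hM : ZFm M) {u : ℕ → V} (hu : ∀ i, M (u i)) (k : ℕ) : M (tp k u) := by
  induction k with
  | zero =>
    have e : tp 0 u = ∅ := by
      ext z
      rw [mem_tp]
      constructor
      · rintro ⟨i, hi, _⟩
        exact absurd hi (Nat.not_lt_zero i)
      · intro h
        exact absurd h (ZFSet.notMem_empty _)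
    rw [e]
    exact TN.mem hM (TN.empty hM) hu
  | succ k ih =>
    rw [tp_succ]
    have h1 := TN.mem hM (TN.pair hM (TN.nS hM k) (TN.cst (hu k))) hu
    have h2 := TN.mem hM (TN.ins hM (TN.cst h1) (TN.cst ih)) hu
    exact h2

/-! ### nodes -/

theorem node (hSEP : T_SEP) (hZ : ZF M) (hd : MetricIn M X d) (hR : Rk M X R d)
    {Y : Type 1} [MetricSpace Y] [CompactSpace Y] {ι : V → Y} (hι : Rz X d ι)
    {K : ℕ → ℕ} {F : ℕ → ℕ → V} (hB : Blk X a K) (hS : Sel X a K F)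
    (hW : ∀ (l : ℕ), ∀ A ∈ SE.hf, ∃ n, ∀ x, x ∈ app W (nS n) ↔
      x ∈ X ∧ ∃ ρ > 0, ∀ y ∈ X, d x y < ρ → PP M R a (nS l) A (tp 1 fun _ => y))
    {y : Y} (hy : ∀ g : Y ≃ᵢ Y, Pre ι X a K F g → g y = y) (k : ℕ) :
    ∃ n, Nd W d k n ∧ ∃ ρ > 0, ∀ u ∈ X, dist (ι u) y < ρ → u ∈ app W (nS n) := by
  have hk : (0 : ℝ) < k + 1 := by positivity
  obtain ⟨l, A, hA, ρ, hρ, h1, h2⟩ := hSEP M X R d hZ hd hR Y ι hι a K F hB hS 1 (fun _ => y)
    (1 / (2 * (k + 1))) (by positivity)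
  obtain ⟨n, hn⟩ := hW l A hA
  have h3 : ∀ u ∈ X, dist (ι u) y < ρ → u ∈ app W (nS n) := by
    intro u hu hlt
    refine (hn u).2 ⟨hu, ρ - dist (ι u) y, by linarith, fun v hv hlt2 => ?_⟩
    refine h1 (fun _ => v) (fun _ => hv) fun i _ => ?_
    show dist (ι v) y < ρ
    have h4 := dist_triangle (ι v) (ι u) y
    have h5 : dist (ι v) (ι u) = d u v := by
      rw [dist_comm, hι.dist u hu v hv]
    linarith
  have h4 : ∀ u ∈ app W (nS n), u ∈ X ∧ dist (ι u) y < 1 / (2 * (k + 1)) := by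
    intro u hu
    obtain ⟨hu1, r, hr, h5⟩ := (hn u).1 hu
    have h6 := h5 u hu1 (by rw [hd.self u hu1]; exact hr)
    obtain ⟨g, hg, hg2⟩ := h2 (fun _ => u) (fun _ => hu1) h6
    have h7 := hg 0 (by norm_num)
    rw [hy g hg2] at h7
    exact ⟨hu1, h7⟩
  refine ⟨n, ⟨?_, ?_⟩, ρ, hρ, h3⟩
  · obtain ⟨x, hx, h5⟩ := hι.dense y ρ hρ
    exact ⟨x, h3 x hx (by rwa [dist_comm] at h5)⟩
  · intro u hu v hv
    obtain ⟨hu1, hu2⟩ := h4 u hu
    obtain ⟨hv1, hv2⟩ := h4 v hv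
    have h5 := dist_triangle (ι u) y (ι v)
    rw [dist_comm y (ι v), hι.dist u hu1 v hv1] at h5
    have h6 : d u v ≤ 1 / (k + 1) := by
      have e : (1 : ℝ) / (k + 1) = 1 / (2 * (k + 1)) + 1 / (2 * (k + 1)) := by
        field_simp
        norm_num
      rw [e]
      linarith
    rw [le_div_iff₀ hk] at h6
    linarith

/-! ### the first case -/

theorem case1 (hSEP : T_SEP) (hWF : T_WF) (hKA : T_KA) (hKC : T_KC)
    (hZ : ZF M) (hd : MetricIn M X d) (hcp : CompactIn M X d) (hR : Rk M X R d)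
    {Y : Type 1} [MetricSpace Y] [CompactSpace Y] {ι : V → Y} (hι : Rz X d ι)
    (E : Finset Y) (p : Y) (c : ℝ → Y) (hE : ∀ e ∈ E, ∃ x ∈ X, ι x = e) (hp : p ∈ E)
    (hc : Continuous c) (hc0 : c 0 = p) (hc1 : ∃ t, c t ≠ p)
    (hg : ∀ g : Y ≃ᵢ Y, (∀ e ∈ E, g e = e) → ∀ t, g (c t) = c t) :
    InjIn M ((ZFSet.powerset om).sep M) X := by
  have hM := hZ.toZFm
  choose! r hr1 hr2 using hE
  -- the list of the points
  let L : List Y := E.toList
  have hL : ∀ i, L.getD i p ∈ E := by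
    intro i
    by_cases hi : i < L.length
    · rw [List.getD_eq_getElem _ _ hi]
      exact Finset.mem_toList.1 (List.getElem_mem hi)
    · rw [List.getD_eq_default _ _ (by omega)]
      exact hp
  let F : ℕ → V := fun i => r (L.getD i p)
  have hF : ∀ i, F i ∈ X := fun i => hr1 _ (hL i)
  have hF2 : ∀ e ∈ E, ∃ i < L.length, ι (F i) = e := by
    intro e he
    obtain ⟨i, hi, h1⟩ := List.getElem_of_mem (Finset.mem_toList.2 he)
    refine ⟨i, hi, ?_⟩
    show ι (r (L.getD i p)) = e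
    rw [hr2 _ (hL i), List.getD_eq_getElem _ _ hi]
    exact h1
  let a : V := {ZFSet.pair (nS 0) {tp L.length F}}
  have ha0 : app a (nS 0) = {tp L.length F} := by
    refine app_eq ?_ (ZFSet.mem_singleton.2 rfl)
    intro x y z hy hz
    have h1 := (ZFSet.pair_injective (ZFSet.mem_singleton.1 hy)).2
    have h2 := (ZFSet.pair_injective (ZFSet.mem_singleton.1 hz)).2
    rw [h1, h2]
  have ha1 : ∀ j : ℕ, j ≠ 0 → app a (nS j) = ∅ := by
    intro j hj
    apply app_of_not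
    intro y hy
    have h1 := (ZFSet.pair_injective (ZFSet.mem_singleton.1 hy)).1
    exact hj (nS_inj.1 h1)
  have hMX : ∀ i, M (F i) := fun i => hM.trans _ hd.mem _ (hF i)
  have hMa : M a := by
    have h1 := m_tp hM hMX L.length
    exact TN.mem hM (TN.sing hM (TN.pair hM (TN.nS hM 0) (TN.sing hM (TN.cst h1)))) hMX
  have hB : Blk X a (fun _ => L.length) := by
    intro j t ht
    by_cases hj : j = 0
    · subst hj
      rw [ha0, ZFSet.mem_singleton] at ht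
      exact ⟨F, hF, ht⟩
    · rw [ha1 j hj] at ht
      exact absurd ht (ZFSet.notMem_empty _)
  have hS : Sel X a (fun _ => L.length) (fun _ => F) := by
    refine ⟨fun _ => hF, fun j hj => ?_⟩
    by_cases h0 : j = 0
    · subst h0
      rw [ha0]
      exact ZFSet.mem_singleton.2 rfl
    · exact absurd (ha1 j h0) hj
  have hfix : ∀ g : Y ≃ᵢ Y, Pre ι X a (fun _ => L.length) (fun _ => F) g → ∀ t, g (c t) = c t := by
    intro g hpre
    refine hg g fun e he => ?_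
    obtain ⟨i, hi, rfl⟩ := hF2 e he
    have h1 : ∀ η > 0, dist (ι (F i)) (g (ι (F i))) < η := by
      intro η hη
      obtain ⟨t, ht, h2, h3⟩ := hpre 0 (by
        rw [ha0]
        intro h
        have h4 : tp L.length F ∈ (∅ : V) := by
          rw [← h]
          exact ZFSet.mem_singleton.2 rfl
        exact ZFSet.notMem_empty _ h4) η hη
      rw [ha0, ZFSet.mem_singleton] at h2
      have h4 := h3 i hi
      rw [tp_inj h2 hi] at h4
      exact h4
    by_contra hne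
    have h2 : 0 < dist (ι (F i)) (g (ι (F i))) := dist_pos.2 fun h => hne h.symm
    exact lt_irrefl _ (h1 _ h2)
  obtain ⟨W, hW, hW2⟩ := hWF M X R a d hZ hd hR hMa (by
    intro j t ht
    obtain ⟨u, hu, rfl⟩ := hB j t ht
    exact m_tp hM (fun i => hM.trans _ hd.mem _ (hu i)) _)
  refine hKA M X W R d hZ hd hR hcp hW (hKC M X W d hZ hd hW Y ι hι (Set.range c)
    ⟨_, 0, rfl⟩ ?_ ?_)
  · rintro _ ⟨t0, rfl⟩ ε hε
    -- a point at positive distance
    obtain ⟨t1, ht1⟩ : ∃ t1, c t1 ≠ c t0 := by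
      obtain ⟨t, ht⟩ := hc1
      by_cases h : c 0 = c t0
      · refine ⟨t, fun h2 => ht ?_⟩
        rw [h2, ← h, hc0]
      · exact ⟨0, h⟩
    have hcont : Continuous fun t => dist (c t0) (c t) := continuous_const.dist hc
    have hpos : 0 < dist (c t0) (c t1) := dist_pos.2 (Ne.symm ht1)
    have h0 : min (ε / 2) (dist (c t0) (c t1)) ∈ Set.uIcc (dist (c t0) (c t0))
        (dist (c t0) (c t1)) := by
      rw [dist_self, Set.uIcc_of_le hpos.le]
      exact ⟨le_min (by linarith) hpos.le, min_le_right _ _⟩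
    obtain ⟨t, _, ht⟩ := (intermediate_value_uIcc (hcont.continuousOn) h0)
    have h1 : 0 < dist (c t0) (c t) := by
      have : 0 < min (ε / 2) (dist (c t0) (c t1)) := lt_min (by linarith) hpos
      rw [← ht] at this
      exact this
    refine ⟨c t, ⟨t, rfl⟩, fun h => ?_, ?_⟩
    · rw [h, dist_self] at h1
      exact lt_irrefl _ h1
    · have h2 : dist (c t0) (c t) ≤ ε / 2 := by
        rw [show dist (c t0) (c t) = min (ε / 2) (dist (c t0) (c t1)) from ht]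
        exact min_le_left _ _
      linarith
  · rintro _ ⟨t, rfl⟩ k
    exact node hSEP hZ hd hR hι hB hS hW2 (fun g hg => hfix g hg t) k

/-! ### the second case -/

/-- natural numbers -/
noncomputable def nb (y : V) : V := sel (y ∈ om) y ∅

theorem nb_eq (y : V) : ∃ k : ℕ, nb y = nS k := by
  unfold nb
  by_cases h : y ∈ om
  · rw [sel_pos h]
    exact mem_om.1 h
  · rw [sel_neg h]
    exact ⟨0, nS_zero.symm⟩

theorem nb_nS (k : ℕ) : nb (nS k) = nS k := by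
  unfold nb
  rw [sel_pos (nS_mem_om k)]

/-- an enumeration of the codes -/
theorem exists_c (hM : ZFm M) : ∃ C : V → V, TN M (fun u => C (u 0)) ∧
    (∀ x, M x → ∃ (k m : ℕ) (A : V), M A ∧
      C x = ZFSet.pair (nS k) (ZFSet.pair A (nS (m + 1)))) ∧
    (∀ (k m : ℕ), ∀ A ∈ SE.hf, ∃ n : ℕ,
      C (nS n) = ZFSet.pair (nS k) (ZFSet.pair A (nS (m + 1)))) := by
  obtain ⟨-, h1, h2, h2p, -, -, -, -, h3⟩ := SE.pf_AA
  have hc : Ctbl M SE.hf := h3 M hM
  rcases hc with hc | ⟨e, he, hf, ho⟩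
  · exfalso
    have h6 : nS 0 ∈ SE.hf := h1 0
    rw [hc] at h6
    exact absurd h6 (ZFSet.notMem_empty _)
  have ve : TN M (fun u => app e (u 0)) := TN.app hM (TN.cst he) (TN.var hM 0)
  have hnb : ∀ {G : (ℕ → V) → V}, TN M G → TN M (fun u => nb (G u)) := fun h =>
    TN.sel hM (DN.mem hM h (TN.om hM)) h (TN.empty hM)
  refine ⟨fun x => ZFSet.pair (nb (fst (app e x))) (ZFSet.pair (fst (snd (app e x)))
    (insert (nb (snd (snd (app e x)))) (nb (snd (snd (app e x)))))), ?_, ?_, ?_⟩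
  · exact TN.pair hM (hnb (TN.fst hM ve)) (TN.pair hM (TN.fst hM (TN.snd hM ve))
      (TN.ins hM (hnb (TN.snd hM (TN.snd hM ve))) (hnb (TN.snd hM (TN.snd hM ve)))))
  · intro x hx
    obtain ⟨k, hk⟩ := nb_eq (fst (app e x))
    obtain ⟨m, hm⟩ := nb_eq (snd (snd (app e x)))
    refine ⟨k, m, fst (snd (app e x)), ?_, ?_⟩
    · exact TN.mem hM (TN.fst hM (TN.snd hM ve)) (u := fun _ => x) fun _ => hx
    · show ZFSet.pair (nb (fst (app e x))) (ZFSet.pair (fst (snd (app e x)))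
        (insert (nb (snd (snd (app e x)))) (nb (snd (snd (app e x)))))) = _
      rw [hk, hm, ← nS_succ]
  · intro k m A hA
    obtain ⟨c, hc, h7⟩ := ho (ZFSet.pair (nS k) (ZFSet.pair A (nS m)))
      (h2p _ (h1 k) _ (h2p _ hA _ (h1 m)))
    obtain ⟨n, rfl⟩ := mem_om.1 (show c ∈ om from hc)
    refine ⟨n, ?_⟩
    show ZFSet.pair (nb (fst (app e (nS n)))) (ZFSet.pair (fst (snd (app e (nS n))))
        (insert (nb (snd (snd (app e (nS n))))) (nb (snd (snd (app e (nS n))))))) = _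
    rw [app_eq (svl_of_isFunc hf) h7, fst_pair, snd_pair, fst_pair, snd_pair, nb_nS, nb_nS,
      ← nS_succ]

theorem tuple {k : ℕ} {t x0 : V} (h : ZFSet.IsFunc (nS k) X t) (hx0 : x0 ∈ X) :
    ∃ u : ℕ → V, (∀ i, u i ∈ X) ∧ t = tp k u := by
  classical
  refine ⟨fun i => if i < k then app t (nS i) else x0, fun i => ?_, ?_⟩
  · show (if i < k then app t (nS i) else x0) ∈ X
    by_cases hi : i < k
    · rw [if_pos hi]
      exact app_mem h (nS_mem_nS.2 hi)
    · rw [if_neg hi]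
      exact hx0
  · ext z
    rw [mem_tp]
    constructor
    · intro hz
      obtain ⟨y, hy, w, hw, rfl⟩ := ZFSet.mem_prod.1 (h.1 hz)
      obtain ⟨b, hb, rfl⟩ := Ordinal.mem_toZFSet_iff.1 hy
      obtain ⟨i, rfl⟩ := Ordinal.lt_omega0.1 (hb.trans (Ordinal.natCast_lt_omega0 k))
      have hi : i < k := by exact_mod_cast hb
      refine ⟨i, hi, ?_⟩
      show ZFSet.pair (nS i) w = ZFSet.pair (nS i) (if i < k then app t (nS i) else x0)
      rw [if_pos hi, app_eq (svl_of_isFunc h) hz]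
    · rintro ⟨i, hi, rfl⟩
      show ZFSet.pair (nS i) (if i < k then app t (nS i) else x0) ∈ t
      rw [if_pos hi]
      exact pair_app_mem h (nS_mem_nS.2 hi)

theorem app_seqS (A : ℕ → V) (j : ℕ) : app (seqS A) (nS j) = A j := by
  refine app_eq ?_ ?_
  · intro x y z hy hz
    unfold seqS at hy hz
    rw [ZFSet.mem_range] at hy hz
    obtain ⟨i, hi⟩ := hy
    obtain ⟨i', hi'⟩ := hz
    obtain ⟨h1, h2⟩ := ZFSet.pair_injective hi
    obtain ⟨h3, h4⟩ := ZFSet.pair_injective hi'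
    rw [← h3] at h1
    rw [nS_inj] at h1
    subst h1
    rw [← h2, ← h4]
  · unfold seqS
    rw [ZFSet.mem_range]
    exact ⟨j, rfl⟩

theorem case2 (hSEP : T_SEP) (hWF : T_WF) (hFAM : T_FAM) (hFIN : T_FIN) (hSTB : T_STB)
    (hKA : T_KA) (hKB : T_KB)
    (hZ : ZF M) (hch : CACfinOn M (ZFSet.powerset (ZFSet.powerset (ZFSet.prod om X))))
    (hd : MetricIn M X d) (hcp : CompactIn M X d) (hne : X.Nonempty)
    (hX : ¬ InjIn M X om) (hR : Rk M X R d)
    {Y : Type 1} [MetricSpace Y] [CompactSpace Y] {ι : V → Y} (hι : Rz X d ι)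
    (U : ℕ → Subgroup (Y ≃ᵢ Y)) (hU1 : ∀ n, (U n).Normal)
    (hU3 : ∀ n, ∃ E : Finset Y, (∀ e ∈ E, ∃ x ∈ X, ι x = e) ∧
      ∀ g : Y ≃ᵢ Y, (∀ e ∈ E, g e = e) → g ∈ U n)
    (hU4 : ∀ n, ∃ ε > 0, ∀ g : Y ≃ᵢ Y, (∀ y, dist (g y) y < ε) → g ∈ U n)
    (hU5 : ∀ g, (∀ n, g ∈ U n) → g = 1) :
    InjIn M ((ZFSet.powerset om).sep M) X := by
  have hM := hZ.toZFm
  obtain ⟨x0, hx0⟩ := hne
  obtain ⟨C, hC, hC1, hC2⟩ := exists_c hM
  obtain ⟨hF1, hF2⟩ := hFIN M X R d hZ hd hR Y ι hι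
  have hmX := hd.mem
  have hnS : ∀ n : ℕ, M (nS n) := fun n => TN.mem hM (TN.nS hM n) (u := fun _ => X) fun _ => hmX
  have hCM : ∀ n : ℕ, M (C (nS n)) := fun n =>
    TN.mem hM hC (u := fun _ => nS n) fun _ => hnS n
  -- the choice
  have hseq : M (seqS fun n => Fm M X R (C (nS n))) := by
    have e : (seqS fun n => Fm M X R (C (nS n))) = resS om fun x => Fm M X R (C x) := by
      ext z
      unfold seqS
      rw [ZFSet.mem_range, mem_resS]
      constructor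
      · rintro ⟨n, rfl⟩
        exact ⟨nS n, nS_mem_om n, rfl⟩
      · rintro ⟨x, hx, rfl⟩
        obtain ⟨n, rfl⟩ := mem_om.1 hx
        exact ⟨n, rfl⟩
    rw [e]
    have h1 : TN M (fun w => Fm M X R (C (w 0))) :=
      TN.at1 (P := fun x => Fm M X R x) hM (hFAM M X R d hZ hd hR) hC
    exact TN.mem hM (TN.resS (F := fun _ => om) hM (TN.om hM) h1) (u := fun _ => X) fun _ => hmX
  obtain ⟨a', ha1, ha2⟩ := hch _ hseq (by
    intro n
    obtain ⟨k, m, A, hA, h1⟩ := hC1 _ (hnS n)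
    refine ⟨?_, hF1 _ (hCM n), ?_⟩
    · rw [h1]
      exact hF2 k m A hA
    · rw [h1]
      intro y hy
      rw [ZFSet.mem_powerset]
      unfold Fm at hy
      rw [ZFSet.mem_union] at hy
      rcases hy with hy | hy
      · obtain ⟨t0, _, rfl⟩ := mem_imS.1 hy
        intro t ht
        have h4 := (ZFSet.mem_sep.1 ht).1
        unfold Uc at h4
        have h5 := (ZFSet.mem_sep.1 h4).1
        unfold Tu at h5
        rw [fst_pair] at h5
        have h6 := ZFSet.mem_powerset.1 (ZFSet.mem_sep.1 (ZFSet.mem_sep.1 h5).1).1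
        rw [ZFSet.mem_powerset]
        intro z hz
        obtain ⟨i, hi, x, hx, rfl⟩ := ZFSet.mem_prod.1 (h6 hz)
        obtain ⟨b, hb, rfl⟩ := Ordinal.mem_toZFSet_iff.1 hi
        obtain ⟨j, rfl⟩ := Ordinal.lt_omega0.1 (hb.trans (Ordinal.natCast_lt_omega0 k))
        exact ZFSet.pair_mem_prod.2 ⟨nS_mem_om j, hx⟩
      · have h3 := (ZFSet.mem_sep.1 hy).1
        rw [ZFSet.mem_singleton] at h3
        rw [h3]
        exact fun z hz => absurd hz (ZFSet.notMem_empty _))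
  have happ : ∀ j, app (seqS a') (nS j) = a' j := app_seqS a'
  -- the tuples
  have hK : ∀ j : ℕ, ∃ k : ℕ, ∀ t ∈ a' j, ZFSet.IsFunc (nS k) X t := by
    intro j
    obtain ⟨k, m, A, hA, h1⟩ := hC1 _ (hnS j)
    refine ⟨k, fun t ht => ?_⟩
    have h2 := ha2 j
    rw [h1] at h2
    unfold Fm at h2
    rw [ZFSet.mem_union] at h2
    rcases h2 with h2 | h2
    · obtain ⟨t0, _, h3⟩ := mem_imS.1 h2
      rw [← h3] at ht
      have h4 := (ZFSet.mem_sep.1 ht).1
      unfold Uc at h4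
      have h5 := (ZFSet.mem_sep.1 h4).1
      unfold Tu at h5
      rw [fst_pair] at h5
      exact (ZFSet.mem_sep.1 h5).2
    · have h3 := (ZFSet.mem_sep.1 h2).1
      rw [ZFSet.mem_singleton] at h3
      rw [h3] at ht
      exact absurd ht (ZFSet.notMem_empty _)
  choose K hK using hK
  have hB : Blk X (seqS a') K := by
    intro j t ht
    rw [happ] at ht
    exact tuple (hK j t ht) hx0
  have hFj : ∀ j, ∃ F : ℕ → V, (∀ i, F i ∈ X) ∧ (a' j ≠ ∅ → tp (K j) F ∈ a' j) := by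
    intro j
    by_cases h : a' j = ∅
    · exact ⟨fun _ => x0, fun _ => hx0, fun h2 => absurd h h2⟩
    · have hex : ∃ t, t ∈ a' j := by
        by_contra h0
        apply h
        ext z
        exact ⟨fun hz => absurd ⟨z, hz⟩ h0, fun hz => absurd hz (ZFSet.notMem_empty _)⟩
      obtain ⟨t, ht⟩ := hex
      obtain ⟨u, hu, h1⟩ := tuple (hK j t ht) hx0
      exact ⟨u, hu, fun _ => h1 ▸ ht⟩
  choose F hFa hFb using hFj
  have hS : Sel X (seqS a') K F := by
    refine ⟨hFa, fun j hj => ?_⟩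
    rw [happ] at hj ⊢
    exact hFb j hj
  have hcls : ∀ (k n : ℕ), ∀ A ∈ SE.hf, ∃ j, app (seqS a') (nS j) ∈
      Fm M X R (ZFSet.pair (nS k) (ZFSet.pair A (nS (n + 1)))) := by
    intro k n A hA
    obtain ⟨j, hj⟩ := hC2 k n A hA
    refine ⟨j, ?_⟩
    rw [happ, ← hj]
    exact ha2 j
  have hrig : ∀ g : Y ≃ᵢ Y, Pre ι X (seqS a') K F g → g = 1 := by
    intro g hg
    exact hU5 g fun n => hSTB M X R d hZ hd hR Y ι hι (seqS a') K F hB hS hcls (U n) (hU1 n)
      (hU3 n) (hU4 n) g hg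
  obtain ⟨W, hW, hW2⟩ := hWF M X R (seqS a') d hZ hd hR ha1 (by
    intro j t ht
    have h1 : M (app (seqS a') (nS j)) :=
      TN.mem hM (TN.app hM (TN.cst ha1) (TN.cst (hnS j))) (u := fun _ => X) fun _ => hmX
    exact hM.trans _ h1 t ht)
  by_cases hker : ∃ k n : ℕ, ∀ α : Ordinal.{0}, M α.toZFSet → Dk X W d α k n
  · exact hKA M X W R d hZ hd hR hcp hW hker
  · exfalso
    refine hX (hKB M X W R d hZ hd hR hW hker fun x hx k => ?_)
    obtain ⟨n, hn, ρ, hρ, h1⟩ := node hSEP hZ hd hR hι hB hS hW2 (y := ι x)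
      (fun g hg => by rw [hrig g hg]; rfl) k
    exact ⟨n, hn, h1 x hx (by rw [dist_self]; exact hρ)⟩

end Mn

open Mn

theorem mainL_of (hCMP : T_CMP) (hRK : T_RK) (hSEP : T_SEP) (hWF : T_WF) (hFAM : T_FAM)
    (hFIN : T_FIN) (hSTB : T_STB) (hKA : T_KA) (hKB : T_KB) (hKC : T_KC) : T_MAINL := by
  intro M hZ X d hd hcp hch hX
  have hM := hZ.toZFm
  by_cases hne : X.Nonempty
  · obtain ⟨Y, _, _, ι, hι⟩ := hCMP M X d hZ hd hcp hne
    obtain ⟨R, hR⟩ := hRK M X d hM hd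
    have hD : Dense (ι '' {x | x ∈ X}) := by
      intro y
      rw [Metric.mem_closure_iff]
      intro ε hε
      obtain ⟨x, hx, h⟩ := hι.dense y ε hε
      exact ⟨ι x, ⟨x, hx, rfl⟩, h⟩
    rcases Pool.Agent.H78.CM.vt_all Y (ι '' {x | x ∈ X}) hD with
      ⟨E, p, c, hE, hp, hc, hc0, hc1, hg⟩ | ⟨U, hU1, hU2, hU3, hU4, hU5⟩
    · exact case1 hSEP hWF hKA hKC hZ hd hcp hR hι E p c (fun e he => hE he) hp hc hc0 hc1 hg
    · refine case2 hSEP hWF hFAM hFIN hSTB hKA hKB hZ hch hd hcp hne hX hR hι U hU1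
        (fun n => ?_) hU4 hU5
      obtain ⟨E, hE1, hE2⟩ := hU3 n
      exact ⟨E, fun e he => hE1 he, hE2⟩
  · exfalso
    apply hX
    have he : X = ∅ := by
      ext z
      constructor
      · intro hz
        exact absurd ⟨z, hz⟩ hne
      · intro hz
        exact absurd hz (ZFSet.notMem_empty _)
    subst he
    refine ⟨∅, hd.mem, ⟨fun z hz => absurd hz (ZFSet.notMem_empty _), fun z hz =>
      absurd hz (ZFSet.notMem_empty _)⟩, fun s t z hz => absurd hz (ZFSet.notMem_empty _)⟩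

theorem main_of_mainL (h : T_MAINL) : T_MAIN := fun M hZ hch X d hd hcp hX =>
  h M hZ X d hd hcp (fun A hA h1 => hch A hA fun n => ⟨(h1 n).1, (h1 n).2.1⟩) hX

end CZ
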